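import Pool.Agent.Lib.MP_78205c_lc.Lev

/-!
Joint alignments of a string with several traces, runs and anchors.
-/

namespace Pool.Agent.Lib.MP_78205c_lc.Mj

open Finset

theorem lev_triangle (x y z : List Bool) : lev x z ≤ lev x y + lev y z := by
  have key : ∀ N, ∀ {x y z : List Bool} {e e' : ℕ}, x.length + y.length + z.length < N →
      Al e x y → Al e' y z → lev x z ≤ e + e' := by
    intro N
    induction N with
    | zero => intro x y z e e' hN; omega
    | succ N ih =>
      intro x y z e e' hN h h'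
      cases h with
      | nil => simpa using h'.lev_le
      | del c h =>
        have := ih (by simp only [List.length_cons] at hN; omega) h h'
        exact (lev_del _ _ _).trans (by omega)
      | keep c h =>
        cases h' with
        | keep _ h' =>
          exact (lev_keep _ _ _).trans (ih (by simp only [List.length_cons] at hN; omega) h h')
        | del _ h' =>
          have := ih (by simp only [List.length_cons] at hN; omega) h h'
          exact (lev_del _ _ _).trans (by omega)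
        | ins d h' =>
          have := ih (by simp only [List.length_cons] at hN ⊢; omega) (h.keep c) h'
          exact (lev_ins _ _ _).trans (by omega)
      | ins c h =>
        cases h' with
        | keep _ h' =>
          have := ih (by simp only [List.length_cons] at hN; omega) h h'
          exact (lev_ins _ _ _).trans (by omega)
        | del _ h' =>
          have := ih (by simp only [List.length_cons] at hN; omega) h h'
          omega
        | ins d h' =>
          have := ih (by simp only [List.length_cons] at hN ⊢; omega) (h.ins c) h'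
          exact (lev_ins _ _ _).trans (by omega)
  exact key _ (Nat.lt_succ_self _) (al_lev x y) (al_lev y z)

theorem lev_comm (x y : List Bool) : lev x y ≤ lev y x := by
  have key : ∀ {e x y}, Al e x y → Al e y x := by
    intro e x y h
    induction h with
    | nil => exact .nil
    | keep c _ ih => exact ih.keep c
    | del c _ ih => exact ih.ins c
    | ins c _ ih => exact ih.del c
  exact (key (al_lev y x)).lev_le

theorem take_split (l : List Bool) {a b : ℕ} (hab : a ≤ b) :
    l.take b = l.take a ++ (l.drop a).take (b - a) := by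
  rw [← List.take_add, Nat.add_sub_cancel' hab]

theorem card_spaced {g : ℕ} (hg : 1 ≤ g) (D B : Finset ℕ) (f lo len : ℕ → ℕ)
    (h1 : ∀ c ∈ D, ∀ c' ∈ D, c < c' → f c + g ≤ f c')
    (h2 : ∀ c ∈ D, ∃ m ∈ B, lo m ≤ f c ∧ f c < lo m + len m) :
    D.card ≤ ∑ m ∈ B, (len m / g + 1) := by
  have sub : D ⊆ B.biUnion fun m => D.filter fun c => lo m ≤ f c ∧ f c < lo m + len m := by
    intro c hc
    obtain ⟨m, m1, m2⟩ := h2 c hc
    exact Finset.mem_biUnion.2 ⟨m, m1, Finset.mem_filter.2 ⟨hc, m2⟩⟩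
  refine (Finset.card_le_card sub).trans (Finset.card_biUnion_le.trans
    (Finset.sum_le_sum fun m _ => ?_))
  rw [← Finset.card_range (len m / g + 1)]
  have key : ∀ c ∈ D, ∀ c' ∈ D, lo m ≤ f c → c < c' → (f c - lo m) / g < (f c' - lo m) / g := by
    intro c hc c' hc' l hcc
    have := h1 c hc c' hc' hcc
    calc _ < (f c - lo m + g) / g := by rw [Nat.add_div_right _ hg]; omega
      _ ≤ _ := Nat.div_le_div_right (by omega)
  refine Finset.card_le_card_of_injOn (fun c => (f c - lo m) / g) (fun c hc => ?_)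
    fun c hc c' hc' e => ?_
  · have := (Finset.mem_filter.1 hc).2
    exact Finset.mem_coe.2 (mem_range.2 (Nat.lt_succ_of_le (Nat.div_le_div_right (by omega))))
  · obtain ⟨c1, c2⟩ := Finset.mem_filter.1 hc
    obtain ⟨c3, c4⟩ := Finset.mem_filter.1 hc'
    rcases lt_trichotomy c c' with hi | hi | hi
    · exact absurd e (key c c1 c' c3 c2.1 hi).ne
    · exact hi
    · exact absurd e (key c' c3 c c1 c4.1 hi).ne'

/-- A joint alignment of `w` with the traces `ys`: cut points `a`, costs `c`, and a set `B` of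
heavy chunks; every other chunk of length `2 W` has total cost below `h`. -/
structure Cert {M : ℕ} (w : List Bool) (ys : Fin M → List Bool) (W h T : ℕ) where
  a : Fin M → ℕ → ℕ
  c : Fin M → ℕ → ℕ
  B : Finset ℕ
  a0 : ∀ j, a j 0 = 0
  mono : ∀ j i, a j i ≤ a j (i + 1)
  len : ∀ j i, a j (i + 1) ≤ a j i + 1 + c j i
  cl : ∀ j i, c j i = 0 → a j (i + 1) = a j i + 1 ∧ (ys j)[a j i]? = w[i]?
  unb : ∀ j q, ∃ i, q < a j (i + 1)
  pc : ∀ j i, lev ((w.drop i).take 1) (((ys j).drop (a j i)).take (a j (i + 1) - a j i)) ≤ c j i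
  fin : ∀ j, a j w.length = (ys j).length
  lightB : ∀ m ∉ B, ∑ j, ∑ x ∈ Ico (m * W) (m * W + 2 * W), c j x < h
  mass : ∑ m ∈ B, (1 + ∑ j, ∑ x ∈ Ico (m * W) (m * W + 2 * W), c j x) ≤ T

variable {M W h T : ℕ} {w s z : List Bool} {ys : Fin M → List Bool}

namespace Cert

variable (C : Cert w ys W h T)

theorem mono' (j : Fin M) : Monotone (C.a j) := monotone_nat_of_le_succ (C.mono j)

theorem up (j : Fin M) {i i' : ℕ} (hi : i ≤ i') :
    C.a j i' + i ≤ C.a j i + i' + ∑ x ∈ Ico i i', C.c j x := by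
  induction i', hi using Nat.le_induction with
  | base => simp
  | succ m hm ih =>
    rw [Finset.sum_Ico_succ_top hm]
    have := C.len j m
    omega

theorem low (j : Fin M) {i i' : ℕ} (hi : i ≤ i') :
    C.a j i + i' ≤ C.a j i' + i + ∑ x ∈ Ico i i', C.c j x := by
  induction i', hi using Nat.le_induction with
  | base => simp
  | succ m hm ih =>
    rw [Finset.sum_Ico_succ_top hm]
    have h1 := C.mono j m
    by_cases h0 : C.c j m = 0
    · have := (C.cl j m h0).1
      omega
    · omega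

theorem lt_of_clean {j : Fin M} {i i' : ℕ} (h0 : C.c j i = 0) (hi : i < i') :
    C.a j i < C.a j i' := by
  have h1 := (C.cl j i h0).1
  have h2 := C.mono' j (show i + 1 ≤ i' from hi)
  omega

theorem inj_clean {j : Fin M} {i i' : ℕ} (h0 : C.c j i = 0) (h1 : C.c j i' = 0)
    (e : C.a j i = C.a j i') : i = i' := by
  rcases lt_trichotomy i i' with hi | hi | hi
  · exact absurd e (C.lt_of_clean h0 hi).ne
  · exact hi
  · exact absurd e (C.lt_of_clean h1 hi).ne'

theorem light (i : ℕ) (h0 : i / W ∉ C.B) : ∑ j, ∑ x ∈ Ico i (i + W), C.c j x < h := by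
  refine lt_of_le_of_lt (Finset.sum_le_sum fun j _ => Finset.sum_le_sum_of_subset fun x hx => ?_)
    (C.lightB _ h0)
  rw [mem_Ico] at hx ⊢
  have h1 := Nat.div_mul_le_self i W
  have h2 := Nat.lt_div_mul_add (a := i) (show 0 < W by omega)
  omega

theorem sub_light {i0 i i' : ℕ} (h0 : i0 / W ∉ C.B) (h1 : i0 ≤ i) (h2 : i' ≤ i0 + W) (j : Fin M) :
    ∑ x ∈ Ico i i', C.c j x < h :=
  lt_of_le_of_lt ((Finset.sum_le_sum_of_subset (Finset.Ico_subset_Ico h1 h2)).trans
    (Finset.single_le_sum (f := fun j => ∑ x ∈ Ico i0 (i0 + W), C.c j x)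
      (fun _ _ => Nat.zero_le _) (mem_univ j))) (C.light i0 h0)

/-- The position whose piece contains the trace position `q`. -/
def I (j : Fin M) (q : ℕ) : ℕ := Nat.find (C.unb j q)

theorem lt_I (j : Fin M) (q : ℕ) : q < C.a j (C.I j q + 1) := Nat.find_spec (C.unb j q)

theorem I_le_of {j : Fin M} {q i : ℕ} (hq : q < C.a j (i + 1)) : C.I j q ≤ i :=
  Nat.find_min' (C.unb j q) hq

theorem I_le (j : Fin M) (q : ℕ) : C.a j (C.I j q) ≤ q := by
  cases e : C.I j q with
  | zero => rw [C.a0]; exact Nat.zero_le _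
  | succ m =>
    by_contra hn
    have := C.I_le_of (j := j) (q := q) (i := m) (not_le.1 hn)
    omega

theorem I_eq {j : Fin M} {q i : ℕ} (h1 : C.a j i ≤ q) (h2 : q < C.a j (i + 1)) : C.I j q = i := by
  refine le_antisymm (C.I_le_of h2) ?_
  by_contra hn
  have h3 := C.mono' j (show C.I j q + 1 ≤ i by omega)
  have := C.lt_I j q
  omega

theorem I_mono (j : Fin M) {q q' : ℕ} (hq : q ≤ q') : C.I j q ≤ C.I j q' :=
  C.I_le_of (hq.trans_lt (C.lt_I j q'))

theorem card_B : C.B.card ≤ T := by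
  refine le_trans ?_ C.mass
  rw [Finset.card_eq_sum_ones]
  exact Finset.sum_le_sum fun _ _ => Nat.le_add_right _ _

theorem seg (j : Fin M) {i i' : ℕ} (hi : i ≤ i') :
    lev ((w.drop i).take (i' - i)) (((ys j).drop (C.a j i)).take (C.a j i' - C.a j i)) ≤
      ∑ x ∈ Ico i i', C.c j x := by
  induction i', hi using Nat.le_induction with
  | base => simp [lev_self]
  | succ m hm ih =>
    have h1 := C.mono j m
    have h2 := C.mono' j hm
    rw [Finset.sum_Ico_succ_top hm, take_split _ (show m - i ≤ m + 1 - i by omega),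
      take_split _ (show C.a j m - C.a j i ≤ C.a j (m + 1) - C.a j i by omega), List.drop_drop,
      List.drop_drop, show i + (m - i) = m by omega, show m + 1 - i - (m - i) = 1 by omega,
      show C.a j i + (C.a j m - C.a j i) = C.a j m by omega,
      show C.a j (m + 1) - C.a j i - (C.a j m - C.a j i) = C.a j (m + 1) - C.a j m by omega]
    exact (lev_append _ _ _ _).trans (add_le_add ih (C.pc j m))

/-- The cost in heavy chunks before position `i`. -/
def hv (j : Fin M) (i : ℕ) : ℕ := ∑ x ∈ range i, if x / W ∈ C.B then C.c j x else 0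

theorem hv_mono (j : Fin M) {i i' : ℕ} (hi : i ≤ i') : C.hv j i ≤ C.hv j i' :=
  Finset.sum_le_sum_of_subset (Finset.range_mono hi)

theorem block_le (hW : 0 < W) (j : Fin M) (D : Finset ℕ) (m : ℕ) :
    ∑ x ∈ D with x / W = m, C.c j x ≤ ∑ j, ∑ x ∈ Ico (m * W) (m * W + 2 * W), C.c j x := by
  refine le_trans (Finset.sum_le_sum_of_subset fun x hx => ?_)
    (Finset.single_le_sum (f := fun j => ∑ x ∈ Ico (m * W) (m * W + 2 * W), C.c j x)
      (fun _ _ => Nat.zero_le _) (mem_univ j))
  obtain rfl := (Finset.mem_filter.1 hx).2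
  have h1 := Nat.div_mul_le_self x W
  have h2 := Nat.lt_div_mul_add (a := x) hW
  exact mem_Ico.2 ⟨h1, by omega⟩

theorem hv_le (hW : 0 < W) (j : Fin M) (i : ℕ) : C.hv j i ≤ T := by
  refine le_trans ?_ C.mass
  rw [hv, ← Finset.sum_filter, ← Finset.sum_fiberwise_of_maps_to (g := fun x => x / W) (t := C.B)
    (fun x hx => (Finset.mem_filter.1 hx).2)]
  exact Finset.sum_le_sum fun m _ => (C.block_le hW j _ m).trans (Nat.le_add_left _ _)

theorem cost_le (hW : 0 < W) (j : Fin M) {i i' : ℕ} (hi : i ≤ i') :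
    W * (∑ x ∈ Ico i i', C.c j x) + W * C.hv j i + h * i ≤ W * C.hv j i' + h * i' + 2 * (h * W) := by
  have a1 : C.hv j i' = C.hv j i + ∑ x ∈ Ico i i' with x / W ∈ C.B, C.c j x := by
    rw [hv, hv, Finset.sum_filter, Finset.sum_range_add_sum_Ico _ hi]
  have a2 := Finset.sum_filter_add_sum_filter_not (Ico i i') (fun x => x / W ∈ C.B) (C.c j)
  have a3 : ∑ x ∈ Ico i i' with x / W ∉ C.B, C.c j x ≤ (i' / W + 1 - i / W) * h := by
    rw [← Finset.sum_fiberwise_of_maps_to (g := fun x => x / W)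
      (t := (Ico (i / W) (i' / W + 1)).filter fun m => m ∉ C.B)]
    · refine (Finset.sum_le_card_nsmul _ _ h fun m hm => (C.block_le hW j _ m).trans
        (C.lightB m (Finset.mem_filter.1 hm).2).le).trans ?_
      rw [smul_eq_mul, ← Nat.card_Ico]
      exact Nat.mul_le_mul_right _ (Finset.card_filter_le _ _)
    · intro x hx
      obtain ⟨x1, x2⟩ := Finset.mem_filter.1 hx
      rw [mem_Ico] at x1
      exact Finset.mem_filter.2 ⟨mem_Ico.2 ⟨Nat.div_le_div_right x1.1,
        Nat.lt_succ_of_le (Nat.div_le_div_right x1.2.le)⟩, x2⟩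
  have a4 : (i' / W + 1 - i / W) * W + i ≤ i' + 2 * W := by
    have h1 := Nat.div_mul_le_self i' W
    have h2 := Nat.lt_div_mul_add (a := i) hW
    have h3 := Nat.mul_le_mul_right W (Nat.div_le_div_right (c := W) hi)
    rw [Nat.sub_mul, add_mul]
    omega
  rw [a1, ← a2]
  nlinarith [Nat.mul_le_mul_left W a3, Nat.mul_le_mul_left h a4]

end Cert

variable (Cs : Cert s ys W h T) (Cz : Cert z ys W h T)

/-- Both alignments copy `k` consecutive letters through the same part of trace `j`. -/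
def Run (j : Fin M) (x i k : ℕ) : Prop :=
  Cz.a j x = Cs.a j i ∧ ∀ r < k, Cz.c j (x + r) = 0 ∧ Cs.c j (i + r) = 0

variable {Cs Cz}

theorem Run.shift {j : Fin M} {x i k : ℕ} (R : Run Cs Cz j x i k) :
    ∀ r ≤ k, Cz.a j (x + r) = Cs.a j (i + r) := by
  intro r hr
  induction r with
  | zero => exact R.1
  | succ r ih =>
    have h1 := (Cz.cl j _ (R.2 r hr).1).1
    have h2 := (Cs.cl j _ (R.2 r hr).2).1
    have h3 := ih (by omega)
    rw [← Nat.add_assoc, ← Nat.add_assoc]
    omega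

theorem Run.eq {j : Fin M} {x i k : ℕ} (R : Run Cs Cz j x i k) {r : ℕ} (hr : r < k) :
    z[x + r]? = s[i + r]? := by
  rw [← (Cz.cl j _ (R.2 r hr).1).2, ← (Cs.cl j _ (R.2 r hr).2).2, R.shift r hr.le]

theorem Run.gap {j : Fin M} {x i k x' i' : ℕ} (R : Run Cs Cz j x i k) (hk : 1 ≤ k)
    (e : Cz.a j x' = Cs.a j i') (hx : x + k ≤ x') : i + k ≤ i' := by
  by_contra hn
  have h1 := R.shift (k - 1) (by omega)
  have h2 := Cz.lt_of_clean (R.2 (k - 1) (by omega)).1 (show x + (k - 1) < x' by omega)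
  have h3 := Cs.mono' j (show i' ≤ i + (k - 1) by omega)
  omega

variable (Cs Cz) in
/-- A position of `z` at which both alignments copy. -/
def Smooth (j : Fin M) (x : ℕ) : Prop :=
  Cz.c j x = 0 ∧ Cs.c j (Cs.I j (Cz.a j x)) = 0 ∧ Cs.c j (Cs.I j (Cz.a j x) + 1) = 0

theorem Smooth.eq {j : Fin M} {x : ℕ} (S : Smooth Cs Cz j x) :
    Cz.a j x = Cs.a j (Cs.I j (Cz.a j x)) := by
  have h1 := (Cs.cl j _ S.2.1).1
  have h2 := Cs.lt_I j (Cz.a j x)
  have h3 := Cs.I_le j (Cz.a j x)
  omega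

theorem run_of_smooth {j : Fin M} {x k : ℕ} (hk : 1 ≤ k) (S : ∀ r < k, Smooth Cs Cz j (x + r)) :
    Run Cs Cz j x (Cs.I j (Cz.a j x)) k := by
  have key : ∀ r < k, Cs.I j (Cz.a j (x + r)) = Cs.I j (Cz.a j x) + r := by
    intro r hr
    induction r with
    | zero => rfl
    | succ r ih =>
      have h0 := ih (by omega)
      have S1 := S r (by omega)
      have h1 := S1.eq
      have h2 := (Cz.cl j _ S1.1).1
      have h3 := (Cs.cl j _ S1.2.1).1
      have h4 := (Cs.cl j _ S1.2.2).1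
      rw [h0] at h1 h3 h4
      rw [← Nat.add_assoc, ← Nat.add_assoc]
      exact Cs.I_eq (by omega) (by omega)
  refine ⟨(S 0 hk).eq, fun r hr => ⟨(S r hr).1, ?_⟩⟩
  rw [← key r hr]
  exact (S r hr).2.1

open Classical in
theorem card_rough {j : Fin M} {x0 L : ℕ} (hW : L + 2 * h + 2 ≤ W) (h1 : x0 / W ∉ Cz.B)
    (h2 : Cs.I j (Cz.a j x0) / W ∉ Cs.B) :
    ((Ico x0 (x0 + L)).filter fun x => ¬ Smooth Cs Cz j x).card ≤
      ∑ x ∈ Ico x0 (x0 + W), Cz.c j x + 3 * h := by
  set i0 := Cs.I j (Cz.a j x0) with hi0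
  have a1 : ((Ico x0 (x0 + L)).filter fun x => Cz.c j x ≠ 0).card ≤
      ∑ x ∈ Ico x0 (x0 + W), Cz.c j x := by
    rw [Finset.card_eq_sum_ones]
    refine le_trans (Finset.sum_le_sum fun x hx => ?_) (Finset.sum_le_sum_of_subset
      ((Finset.filter_subset _ _).trans (Finset.Ico_subset_Ico le_rfl (by omega))))
    exact Nat.pos_of_ne_zero (Finset.mem_filter.1 hx).2
  have a2 : ((Ico x0 (x0 + L)).filter fun x => Cz.c j x = 0 ∧ ¬ Smooth Cs Cz j x).card ≤
      (((Ico i0 (i0 + W)).filter fun i => Cs.c j i ≠ 0).biUnion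
        fun i => Ico (Cs.a j i - 1) (Cs.a j (i + 1))).card := by
    refine Finset.card_le_card_of_injOn (Cz.a j) (fun x hx => ?_) (fun x hx x' hx' e => ?_)
    · simp only [coe_filter, mem_Ico, Set.mem_ofPred_eq] at hx
      obtain ⟨⟨b1, b2⟩, b3, b4⟩ := hx
      have c1 : i0 ≤ Cs.I j (Cz.a j x) := Cs.I_mono j (Cz.mono' j b1)
      have c2 := Cz.up j b1
      have c3 := Cz.sub_light h1 le_rfl (show x ≤ x0 + W by omega) j
      have c4 := Cs.low j (show i0 + 1 ≤ i0 + W - 2 + 1 by omega)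
      have c5 := Cs.sub_light h2 (show i0 ≤ i0 + 1 by omega)
        (show i0 + W - 2 + 1 ≤ i0 + W by omega) j
      have c6 := Cs.lt_I j (Cz.a j x0)
      rw [← hi0] at c6
      have c7 : Cs.I j (Cz.a j x) ≤ i0 + W - 2 := Cs.I_le_of (by omega)
      have c8 := Cs.lt_I j (Cz.a j x)
      have c9 := Cs.I_le j (Cz.a j x)
      simp only [coe_biUnion, coe_filter, mem_Ico, Set.mem_iUnion, coe_Ico, Set.mem_Ico,
        Set.mem_ofPred_eq]
      by_cases d : Cs.c j (Cs.I j (Cz.a j x)) = 0
      · have d1 := (Cs.cl j _ d).1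
        have d2 := Cs.mono j (Cs.I j (Cz.a j x) + 1)
        exact ⟨Cs.I j (Cz.a j x) + 1, ⟨⟨by omega, by omega⟩, fun e => b4 ⟨b3, d, e⟩⟩,
          by omega, by omega⟩
      · exact ⟨Cs.I j (Cz.a j x), ⟨⟨c1, by omega⟩, d⟩, by omega, c8⟩
    · simp only [coe_filter, Set.mem_ofPred_eq] at hx hx'
      exact Cz.inj_clean hx.2.1 hx'.2.1 e
  have a3 : (((Ico i0 (i0 + W)).filter fun i => Cs.c j i ≠ 0).biUnion
      fun i => Ico (Cs.a j i - 1) (Cs.a j (i + 1))).card ≤ 3 * ∑ i ∈ Ico i0 (i0 + W), Cs.c j i := by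
    rw [Finset.mul_sum]
    refine Finset.card_biUnion_le.trans (le_trans (Finset.sum_le_sum fun i hi => ?_)
      (Finset.sum_le_sum_of_subset (Finset.filter_subset _ _)))
    have b1 := Cs.len j i
    have b2 := (Finset.mem_filter.1 hi).2
    rw [Nat.card_Ico]
    omega
  have a4 := Cs.sub_light h2 le_rfl le_rfl j
  have a5 : ((Ico x0 (x0 + L)).filter fun x => ¬ Smooth Cs Cz j x) ⊆
      ((Ico x0 (x0 + L)).filter fun x => Cz.c j x ≠ 0) ∪
        ((Ico x0 (x0 + L)).filter fun x => Cz.c j x = 0 ∧ ¬ Smooth Cs Cz j x) := by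
    intro x hx
    simp only [mem_filter, mem_union] at hx ⊢
    tauto
  have a6 := (Finset.card_le_card a5).trans (Finset.card_union_le _ _)
  omega

theorem anchor {x0 L k : ℕ} (hk : 1 ≤ k) (hL : (h + 3 * M * h) * k ≤ L) (hW : L + 2 * h + 2 ≤ W)
    (h1 : x0 / W ∉ Cz.B) (h2 : ∀ j, Cs.I j (Cz.a j x0) / W ∉ Cs.B) :
    ∃ x, x0 ≤ x ∧ x + k ≤ x0 + L ∧ ∀ j, Run Cs Cz j x (Cs.I j (Cz.a j x)) k := by
  classical
  set B := univ.biUnion fun j => (Ico x0 (x0 + L)).filter fun x => ¬ Smooth Cs Cz j x with hB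
  have a1 : B.card < h + 3 * M * h := by
    refine lt_of_le_of_lt (Finset.card_biUnion_le.trans
      (Finset.sum_le_sum fun j _ => card_rough hW h1 (h2 j))) ?_
    have := Cz.light x0 h1
    rw [Finset.sum_add_distrib, Finset.sum_const, card_univ, Fintype.card_fin, smul_eq_mul]
    nlinarith
  obtain ⟨m, m1, m2⟩ := Finset.exists_mem_notMem_of_card_lt_card
    (s := B.image fun x => (x - x0) / k) (t := range (h + 3 * M * h))
    (by rw [card_range]; exact Finset.card_image_le.trans_lt a1)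
  have a2 : (m + 1) * k ≤ L := le_trans (Nat.mul_le_mul_right _ (mem_range.1 m1)) hL
  rw [add_mul, one_mul] at a2
  refine ⟨x0 + m * k, by omega, by omega, fun j => run_of_smooth hk fun r hr => ?_⟩
  by_contra hn
  refine m2 (Finset.mem_image.2 ⟨x0 + m * k + r, ?_, ?_⟩)
  · exact Finset.mem_biUnion.2 ⟨j, mem_univ _, Finset.mem_filter.2 ⟨mem_Ico.2 ⟨by omega, by omega⟩, hn⟩⟩
  · rw [show x0 + m * k + r - x0 = r + m * k by omega, Nat.add_mul_div_right _ _ hk,
      Nat.div_eq_of_lt hr, zero_add]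

/-- Some trace is clean on a light window of each alignment. -/
theorem common (hM : 2 * h ≤ M + 1) {x i : ℕ} (h1 : x / W ∉ Cz.B) (h2 : i / W ∉ Cs.B) :
    ∃ j, (∀ y ∈ Ico x (x + W), Cz.c j y = 0) ∧ ∀ y ∈ Ico i (i + W), Cs.c j y = 0 := by
  by_contra hn
  have a1 : ∑ _j : Fin M, 1 ≤ ∑ j, (∑ y ∈ Ico x (x + W), Cz.c j y + ∑ y ∈ Ico i (i + W), Cs.c j y) := by
    refine Finset.sum_le_sum fun j _ => Nat.pos_of_ne_zero fun e => hn ⟨j, ?_⟩
    rw [Nat.add_eq_zero_iff, Finset.sum_eq_zero_iff, Finset.sum_eq_zero_iff] at e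
    exact e
  have a2 := Cz.light x h1
  have a3 := Cs.light i h2
  rw [Finset.sum_add_distrib, Finset.sum_const, card_univ, Fintype.card_fin, smul_eq_mul] at a1
  omega

/-- Moving between two pairs of positions that meet in trace `j`. -/
theorem move (hW : 0 < W) {j : Fin M} {x i x' i' : ℕ} (e : Cz.a j x = Cs.a j i)
    (e' : Cz.a j x' = Cs.a j i') (hx : x ≤ x') (hi : i ≤ i') :
    W * lev (s.take i') (z.take x') + W * (Cz.hv j x + Cs.hv j i) + h * (x + i) ≤
      W * lev (s.take i) (z.take x) + W * (Cz.hv j x' + Cs.hv j i') + h * (x' + i') +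
        4 * (h * W) := by
  have a1 := Cs.seg j hi
  have a2 := Cz.seg j hx
  rw [e, e'] at a2
  have a3 := (lev_triangle _ _ _).trans (add_le_add a1 ((lev_comm _ _).trans a2))
  have a4 := (lev_append (s.take i) (z.take x) _ _).trans (Nat.add_le_add_left a3 _)
  rw [← take_split _ hi, ← take_split _ hx] at a4
  have a5 := Cs.cost_le hW j hi
  have a6 := Cz.cost_le hW j hx
  nlinarith [Nat.mul_le_mul_left W a4]

end Pool.Agent.Lib.MP_78205c_lc.Mj
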