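import Pool.Agent.Lib.MP_78205c_lc.Mj.Cert

/-!
Two strings that are both jointly aligned with the same traces are close, unless one of them has
many monotone repeats.
-/

namespace Pool.Agent.Lib.MP_78205c_lc.Mj

open Finset

/-- `s` has `t` repeated windows of length `k`, in increasing order on both sides. -/
def Rp (k t : ℕ) (s : List Bool) : Prop :=
  ∃ f g : Fin t → ℕ, StrictMono f ∧ (∀ a b, a < b → g a + k ≤ g b) ∧
    ∀ a, f a < g a ∧ g a + k ≤ s.length ∧ ∀ r < k, s[f a + r]? = s[g a + r]?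

theorem card_lt_of_not_Rp {k t : ℕ} {s : List Bool} (hk : 1 ≤ k) (hR : ¬ Rp k t s) (D : Finset ℕ)
    (u v : ℕ → ℕ) (h1 : ∀ c ∈ D, u c < v c ∧ v c + k ≤ s.length ∧ ∀ r < k, s[u c + r]? = s[v c + r]?)
    (h2 : ∀ c ∈ D, ∀ c' ∈ D, c < c' → u c + k ≤ u c' ∧ v c + k ≤ v c') : D.card < t := by
  by_contra hn
  have hn := not_lt.1 hn
  have m := D.orderEmbOfCardLe_mem hn
  refine hR ⟨fun a => u (D.orderEmbOfCardLe hn a), fun a => v (D.orderEmbOfCardLe hn a),
    fun a b hab => ?_, fun a b hab => ?_, fun a => h1 _ (m a)⟩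
  · have := (h2 _ (m a) _ (m b) ((D.orderEmbOfCardLe hn).strictMono hab)).1
    exact lt_of_lt_of_le (Nat.lt_add_of_pos_right hk) this
  · exact (h2 _ (m a) _ (m b) ((D.orderEmbOfCardLe hn).strictMono hab)).2

variable {M W h T : ℕ} {s z : List Bool} {ys : Fin M → List Bool}

open Classical in
theorem lcs (Cs : Cert s ys W h T) (Cz : Cert z ys W h T) (o : Fin M) (hW : 0 < W) {Δ n : ℕ}
    (x e : ℕ → ℕ) (Syn G : ℕ → Prop) (hx : ∀ c, x c ≤ x (c + 1) ∧ x (c + 1) ≤ x c + Δ)
    (hS : ∀ c, Syn c → Cz.a o (x c) = Cs.a o (e c) ∧ Cs.c o (e c) = 0 ∧ x c ≤ n ∧ e c ≤ n)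
    (hE : ∀ c, G c → Syn c ∧ Syn (c + 1) ∧ e (c + 1) + x c = e c + x (c + 1) ∧
      ∀ r < x (c + 1) - x c, z[x c + r]? = s[e c + r]?) (c : ℕ) :
    ∃ X E m, Cz.a o X = Cs.a o E ∧ X ≤ x c ∧ X ≤ n ∧ E ≤ n ∧ (Syn c → X = x c ∧ E = e c) ∧
      x c ≤ m + x 0 + Δ * ((range c).filter fun c' => ¬ G c').card ∧
      W * lev (s.take E) (z.take X) + 2 * (h * m) ≤ W * (Cz.hv o X + Cs.hv o E) + h * (X + E) +
        4 * (h * W) * (((range c).filter fun c' => ¬ G c').card + 1) := by
  have jump : ∀ X E c, Cz.a o X = Cs.a o E → X ≤ x c → Syn c → E ≤ e c := by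
    intro X E c h1 h2 h3
    by_contra hn
    have h4 := Cs.lt_of_clean (hS c h3).2.1 (not_le.1 hn)
    have h5 := Cz.mono' o h2
    have h6 := (hS c h3).1
    omega
  induction c with
  | zero =>
    by_cases g : Syn 0
    · obtain ⟨g1, _, g3, g4⟩ := hS 0 g
      have := move hW ((Cz.a0 o).trans (Cs.a0 o).symm) g1 (Nat.zero_le _) (Nat.zero_le _)
      refine ⟨x 0, e 0, 0, g1, le_rfl, g3, g4, fun _ => ⟨rfl, rfl⟩, by omega, ?_⟩
      simp only [List.take_zero, lev_self, range_zero, filter_empty, card_empty] at this ⊢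
      omega
    · exact ⟨0, 0, 0, (Cz.a0 o).trans (Cs.a0 o).symm, Nat.zero_le _, Nat.zero_le _, Nat.zero_le _,
        fun a => absurd a g, by omega, by simp [lev_self]⟩
  | succ c ih =>
    obtain ⟨X, E, m, i1, i2, i3, i4, i5, i6, i7⟩ := ih
    obtain ⟨x1, x2⟩ := hx c
    rw [Finset.range_add_one, Finset.filter_insert]
    by_cases g : G c
    · rw [if_neg (not_not.2 g)]
      obtain ⟨s1, s2, e1, e2⟩ := hE c g
      obtain ⟨rfl, rfl⟩ := i5 s1
      obtain ⟨g1, _, g3, g4⟩ := hS _ s2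
      refine ⟨x (c + 1), e (c + 1), m + (x (c + 1) - x c), g1, le_rfl, g3, g4, fun _ => ⟨rfl, rfl⟩,
        by omega, ?_⟩
      have e5 : (z.drop (x c)).take (x (c + 1) - x c) = (s.drop (e c)).take (e (c + 1) - e c) := by
        rw [show e (c + 1) - e c = x (c + 1) - x c by omega]
        refine List.ext_getElem? fun r => ?_
        by_cases hr : r < x (c + 1) - x c
        · simp only [List.getElem?_take, if_pos hr, List.getElem?_drop, e2 r hr]
        · simp only [List.getElem?_take, if_neg hr]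
      have e6 : e c ≤ e (c + 1) := by omega
      have e7 := lev_append (s.take (e c)) (z.take (x c)) ((s.drop (e c)).take (e (c + 1) - e c))
        ((z.drop (x c)).take (x (c + 1) - x c))
      rw [← take_split _ x1, ← take_split _ e6, e5, lev_self, add_zero] at e7
      have e8 := Nat.mul_le_mul_left W (add_le_add (Cz.hv_mono o x1) (Cs.hv_mono o e6))
      have e9 := Nat.mul_le_mul_left W e7
      obtain ⟨d, hd⟩ := Nat.exists_eq_add_of_le x1
      have e10 : h * (x (c + 1) + e (c + 1)) = h * (x c + e c) + 2 * (h * d) := by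
        rw [show e (c + 1) = e c + d by omega, hd]; ring
      rw [show x (c + 1) - x c = d by omega, mul_add h m]
      omega
    · rw [if_pos g, Finset.card_insert_of_notMem (by simp), mul_add Δ, mul_add (4 * (h * W)) _ 1]
      by_cases g' : Syn (c + 1)
      · obtain ⟨g1, _, g3, g4⟩ := hS _ g'
        have := move hW i1 g1 (i2.trans x1) (jump X E _ i1 (i2.trans x1) g')
        exact ⟨x (c + 1), e (c + 1), m, g1, le_rfl, g3, g4, fun _ => ⟨rfl, rfl⟩, by omega, by omega⟩
      · exact ⟨X, E, m, i1, i2.trans x1, i3, i4, fun a => absurd a g', by omega, by omega⟩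

theorem det (Cs : Cert s ys W h T) (Cz : Cert z ys W h T) {k t L : ℕ} (hl : z.length = s.length)
    (hM0 : 0 < M) (hh : 1 ≤ h) (hM : 2 * h ≤ M + 1) (hk : 1 ≤ k) (hL : (h + 3 * M * h) * k = L)
    (hW : W = 3 * L) (hR : ¬ Rp k t s) :
    lev s z ≤ 2 * T + 6 * h * (2 * (4 * T + M * (5 * T) + 2 + M * (2 * t)) +
      (3 * (h + 3 * M * h) + 1) * T) + 9 * h := by
  classical
  obtain ⟨o⟩ : Nonempty (Fin M) := ⟨⟨0, hM0⟩⟩
  have kL : k ≤ L ∧ 4 * h ≤ L := by
    have h1 : 4 * h * k ≤ L := hL ▸ Nat.mul_le_mul_right _ (by nlinarith)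
    exact ⟨le_trans (Nat.le_mul_of_pos_left _ (by omega)) h1,
      le_trans (Nat.le_mul_of_pos_right _ hk) h1⟩
  have W0 : 0 < W := by omega
  have blk : ∀ y, y / W * W ≤ y ∧ y < y / W * W + W :=
    fun y => ⟨Nat.div_mul_le_self y W, Nat.lt_div_mul_add W0⟩
  set Anc : ℕ → Prop := fun c => c * L / W ∉ Cz.B ∧ ∀ j, Cs.I j (Cz.a j (c * L)) / W ∉ Cs.B
    with hAnc
  have ex : ∀ c, ∃ x, c * L ≤ x ∧ x + k ≤ c * L + L ∧
      (Anc c → ∀ j, Run Cs Cz j x (Cs.I j (Cz.a j x)) k) := by
    intro c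
    by_cases a : Anc c
    · obtain ⟨x, x1, x2, x3⟩ := anchor hk hL.le (by omega) a.1 a.2
      exact ⟨x, x1, x2, fun _ => x3⟩
    · exact ⟨c * L, le_rfl, by omega, fun b => absurd b a⟩
  choose x x1 x2 x3 using ex
  obtain ⟨i, hi⟩ : ∃ i : Fin M → ℕ → ℕ, ∀ j c, Cs.I j (Cz.a j (x c)) = i j c := ⟨_, fun _ _ => rfl⟩
  simp only [hi] at x3
  have xg : ∀ c c', c < c' → x c + k ≤ x c' := by
    intro c c' hc
    have h1 := Nat.mul_le_mul_right L (show c + 1 ≤ c' from hc)
    have h2 := x1 c'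
    have h3 := x2 c
    rw [add_mul] at h1
    omega
  have gap : ∀ j c c', Anc c → Anc c' → c < c' → i j c + k ≤ i j c' :=
    fun j c c' a a' hc => (x3 c a j).gap hk (x3 c' a' j).1 (xg c c' hc)
  have bd : ∀ j c, Anc c → (c + 1) * L ≤ s.length → i j c + k ≤ s.length := by
    intro j c a hc
    have h1 := (x3 c a j).eq (show k - 1 < k by omega)
    have h2 := x2 c
    rw [add_mul] at hc
    by_contra hn
    rw [List.getElem?_eq_none (l := s) (by omega), List.getElem?_eq_none_iff] at h1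
    omega
  set N := s.length / L + 1 with hN
  have L0 : 0 < L := by omega
  have a1 : ((range (N + 1)).filter fun c => c * L / W ∈ Cz.B).card ≤ 4 * T := by
    refine (card_spaced L0 _ Cz.B (fun c => c * L) (fun m => m * W) (fun _ => W)
      (fun c _ c' _ hc => ?_) fun c hc => ⟨_, (Finset.mem_filter.1 hc).2, blk _⟩).trans ?_
    · have := Nat.mul_le_mul_right L (show c + 1 ≤ c' from hc)
      rwa [add_mul, one_mul] at this
    · have h1 : W / L ≤ 3 := Nat.div_le_of_le_mul (by omega)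
      rw [Finset.sum_const, smul_eq_mul, mul_comm]
      exact Nat.mul_le_mul (by omega) Cz.card_B
  have a2 : ∀ j, ((range (N + 1)).filter fun c => c * L / W ∉ Cz.B ∧
      Cs.I j (Cz.a j (c * L)) / W ∈ Cs.B).card ≤ 5 * T := by
    intro j
    refine (card_spaced (g := L - h) (by omega) _ Cs.B (fun c => Cz.a j (c * L))
      (fun m => Cs.a j (m * W)) (fun m => W + ∑ j, ∑ x ∈ Ico (m * W) (m * W + 2 * W), Cs.c j x)
      (fun c hc c' _ hcc => ?_) fun c hc => ⟨_, (Finset.mem_filter.1 hc).2.2, ?_⟩).trans ?_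
    · have h1 := Nat.mul_le_mul_right L (show c + 1 ≤ c' from hcc)
      rw [add_mul, one_mul] at h1
      have h2 := Cz.mono' j h1
      have h3 := Cz.low j (Nat.le_add_right (c * L) L)
      have h4 := Cz.sub_light (Finset.mem_filter.1 hc).2.1 le_rfl
        (show c * L + L ≤ c * L + W by omega) j
      omega
    · have h1 := Cs.I_le j (Cz.a j (c * L))
      have h2 := Cs.lt_I j (Cz.a j (c * L))
      obtain ⟨h3, h4⟩ := blk (Cs.I j (Cz.a j (c * L)))
      generalize Cs.I j (Cz.a j (c * L)) = y at *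
      generalize y / W = m at *
      have h5 := Cs.mono' j h3
      have h6 := Cs.mono' j (show y + 1 ≤ m * W + W from h4)
      have h7 := Cs.up j (Nat.le_add_right (m * W) W)
      have h8 : ∑ x ∈ Ico (m * W) (m * W + W), Cs.c j x ≤
          ∑ j, ∑ x ∈ Ico (m * W) (m * W + 2 * W), Cs.c j x :=
        (Finset.sum_le_sum_of_subset (Ico_subset_Ico le_rfl (by omega))).trans
          (Finset.single_le_sum (f := fun j => ∑ x ∈ Ico (m * W) (m * W + 2 * W), Cs.c j x)
            (fun _ _ => Nat.zero_le _) (mem_univ j))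
      omega
    · refine le_trans ?_ (Nat.mul_le_mul_left 5 Cs.mass)
      rw [Finset.mul_sum]
      refine Finset.sum_le_sum fun m _ => ?_
      generalize ∑ j, ∑ x ∈ Ico (m * W) (m * W + 2 * W), Cs.c j x = S
      have h1 : (W + S) / (L - h) ≤ 4 + S := Nat.div_le_of_le_mul (by
        have := Nat.le_mul_of_pos_left S (show 0 < L - h by omega)
        rw [mul_add]; omega)
      omega
  have a3 : ((range (N + 1)).filter fun c => s.length < (c + 1) * L).card ≤ 2 := by
    refine le_trans (Finset.card_le_card (t := Ico (N - 1) (N + 1)) fun c hc => ?_) (by simp; omega)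
    obtain ⟨c1, c2⟩ := Finset.mem_filter.1 hc
    have := (Nat.div_lt_iff_lt_mul L0).2 c2
    rw [mem_range] at c1
    exact mem_Ico.2 ⟨by omega, c1⟩
  have a4 : ∀ j j', ((range (N + 1)).filter fun c => Anc c ∧ (c + 1) * L ≤ s.length ∧
      i j c < i j' c).card < t := by
    intro j j'
    refine card_lt_of_not_Rp hk hR _ (i j) (i j') (fun c hc => ?_) fun c hc c' hc' hcc => ?_
    · obtain ⟨_, c1, c2, c3⟩ := Finset.mem_filter.1 hc
      exact ⟨c3, bd j' c c1 c2, fun r hr => ((x3 c c1 j).eq hr).symm.trans ((x3 c c1 j').eq hr)⟩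
    · have c1 := (Finset.mem_filter.1 hc).2.1
      have c2 := (Finset.mem_filter.1 hc').2.1
      exact ⟨gap j c c' c1 c2 hcc, gap j' c c' c1 c2 hcc⟩
  set Syn : ℕ → Prop := fun c => Anc c ∧ (c + 1) * L ≤ s.length ∧ ∀ j, i j c = i o c with hSyn
  have a5 : ((range (N + 1)).filter fun c => ¬ Syn c).card ≤
      4 * T + M * (5 * T) + 2 + M * (2 * t) := by
    have sub : ((range (N + 1)).filter fun c => ¬ Syn c) ⊆
        ((((range (N + 1)).filter fun c => c * L / W ∈ Cz.B) ∪
          univ.biUnion fun j => (range (N + 1)).filter fun c => c * L / W ∉ Cz.B ∧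
            Cs.I j (Cz.a j (c * L)) / W ∈ Cs.B) ∪
          ((range (N + 1)).filter fun c => s.length < (c + 1) * L)) ∪
          univ.biUnion fun j => ((range (N + 1)).filter fun c => Anc c ∧ (c + 1) * L ≤ s.length ∧
            i j c < i o c) ∪ ((range (N + 1)).filter fun c => Anc c ∧ (c + 1) * L ≤ s.length ∧
            i o c < i j c) := by
      intro c hc
      obtain ⟨c1, c2⟩ := Finset.mem_filter.1 hc
      simp only [mem_union, mem_filter, mem_biUnion, mem_univ, true_and, c1]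
      by_cases b1 : c * L / W ∈ Cz.B
      · exact Or.inl (Or.inl (Or.inl b1))
      by_cases b2 : ∃ j, Cs.I j (Cz.a j (c * L)) / W ∈ Cs.B
      · obtain ⟨j, b2⟩ := b2
        exact Or.inl (Or.inl (Or.inr ⟨j, b1, b2⟩))
      have b3 : Anc c := ⟨b1, fun j hj => b2 ⟨j, hj⟩⟩
      by_cases b4 : (c + 1) * L ≤ s.length
      swap
      · exact Or.inl (Or.inr (not_le.1 b4))
      obtain ⟨j, hj⟩ : ∃ j, i j c ≠ i o c := by
        by_contra hn
        exact c2 ⟨b3, b4, fun j => by_contra fun hj => hn ⟨j, hj⟩⟩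
      exact Or.inr ⟨j, (lt_or_gt_of_ne hj).imp (fun e => ⟨b3, b4, e⟩) fun e => ⟨b3, b4, e⟩⟩
    refine (Finset.card_le_card sub).trans ((card_union_le _ _).trans (add_le_add
      ((card_union_le _ _).trans (add_le_add ((card_union_le _ _).trans (add_le_add a1 ?_)) a3)) ?_))
    · refine Finset.card_biUnion_le.trans ((Finset.sum_le_sum fun j _ => a2 j).trans ?_)
      simp
    · refine Finset.card_biUnion_le.trans ((Finset.sum_le_sum (g := fun _ => 2 * t)
        fun j _ => (card_union_le _ _).trans ?_).trans ?_)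
      · have h1 := a4 j o
        have h2 := a4 o j
        omega
      · simp
  have a6 : ((range N).filter fun c => Anc c ∧ i o c / W ∈ Cs.B).card ≤
      (3 * (h + 3 * M * h) + 1) * T := by
    refine (card_spaced hk _ Cs.B (i o) (fun m => m * W) (fun _ => W)
      (fun c hc c' hc' hcc => gap o c c' (Finset.mem_filter.1 hc).2.1 (Finset.mem_filter.1 hc').2.1 hcc)
      fun c hc => ⟨_, (Finset.mem_filter.1 hc).2.2, blk _⟩).trans ?_
    have h1 : W / k ≤ 3 * (h + 3 * M * h) := Nat.div_le_of_le_mul (by rw [hW, ← hL]; exact le_of_eq (by ring))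
    rw [Finset.sum_const, smul_eq_mul, mul_comm]
    exact Nat.mul_le_mul (by omega) Cs.card_B
  set G : ℕ → Prop := fun c => Syn c ∧ Syn (c + 1) ∧ i o c / W ∉ Cs.B with hG
  have a7 : ((range N).filter fun c => ¬ G c).card ≤
      2 * (4 * T + M * (5 * T) + 2 + M * (2 * t)) + (3 * (h + 3 * M * h) + 1) * T := by
    have sub : ((range N).filter fun c => ¬ G c) ⊆
        (((range (N + 1)).filter fun c => ¬ Syn c) ∪ ((range N).filter fun c => ¬ Syn (c + 1))) ∪
          ((range N).filter fun c => Anc c ∧ i o c / W ∈ Cs.B) := by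
      intro c hc
      obtain ⟨c1, c2⟩ := Finset.mem_filter.1 hc
      have c3 : c ∈ range (N + 1) := mem_range.2 (Nat.lt_succ_of_lt (mem_range.1 c1))
      simp only [mem_union, mem_filter, c1, c3, true_and]
      by_cases b1 : Syn c
      · by_cases b2 : Syn (c + 1)
        · exact Or.inr ⟨b1.1, by_contra fun b3 => c2 ⟨b1, b2, b3⟩⟩
        · exact Or.inl (Or.inr b2)
      · exact Or.inl (Or.inl b1)
    have b : ((range N).filter fun c => ¬ Syn (c + 1)).card ≤
        ((range (N + 1)).filter fun c => ¬ Syn c).card :=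
      Finset.card_le_card_of_injOn (fun c => c + 1) (fun c hc => by
        obtain ⟨c1, c2⟩ := Finset.mem_filter.1 hc
        exact Finset.mem_coe.2 (Finset.mem_filter.2 ⟨mem_range.2 (Nat.succ_lt_succ (mem_range.1 c1)), c2⟩))
        (fun c _ c' _ e => Nat.succ_injective e)
    have c := (Finset.card_le_card sub).trans ((card_union_le _ _).trans
      (add_le_add (card_union_le _ _) a6))
    omega
  have xs : ∀ c, x c ≤ x (c + 1) ∧ x (c + 1) ≤ x c + 2 * L := by
    intro c
    have h1 := xg c (c + 1) (by omega)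
    have h2 := x1 c
    have h3 := x2 (c + 1)
    rw [add_mul] at h3
    omega
  obtain ⟨X, E, m, i1, i2, i3, i4, -, i6, i7⟩ := lcs Cs Cz o W0 (n := s.length) x (i o) Syn G xs
    (fun c g => by
      have h1 := x3 c g.1 o
      have h2 := bd o c g.1 g.2.1
      have h3 := x2 c
      have h4 := g.2.1
      rw [add_mul] at h4
      exact ⟨h1.1, (h1.2 0 hk).2, by omega, by omega⟩)
    (fun c g => by
      obtain ⟨j, j1, j2⟩ := common (Cs := Cs) (Cz := Cz) hM g.1.1.1 g.2.2
      have h1 := x1 c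
      have h2 := x2 (c + 1)
      have h3 := xs c
      rw [add_mul] at h2
      have R : Run Cs Cz j (x c) (i o c) (x (c + 1) - x c + 1) := by
        refine ⟨?_, fun r hr => ⟨j1 _ (mem_Ico.2 ⟨by omega, by omega⟩),
          j2 _ (mem_Ico.2 ⟨by omega, by omega⟩)⟩⟩
        rw [← g.1.2.2 j]
        exact (x3 c g.1.1 j).1
      have R' := x3 (c + 1) g.2.1.1 j
      rw [g.2.1.2.2 j] at R'
      have h4 := R.shift (x (c + 1) - x c) (by omega)
      rw [show x c + (x (c + 1) - x c) = x (c + 1) by omega, R'.1] at h4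
      have h5 := Cs.inj_clean (R'.2 0 hk).2 (R.2 (x (c + 1) - x c) (by omega)).2 h4
      exact ⟨g.1, g.2.1, by omega, fun r hr => R.eq (by omega)⟩) N
  have b1 : s.length < N * L := by
    rw [hN]; exact (Nat.div_lt_iff_lt_mul L0).1 (Nat.lt_succ_self _)
  have b2 := x1 N
  have b3 := x2 0
  have b4 : ∀ inst : DecidablePred fun c => ¬ G c, (@Finset.filter _ _ inst (range N)).card ≤
      2 * (4 * T + M * (5 * T) + 2 + M * (2 * t)) + (3 * (h + 3 * M * h) + 1) * T := fun inst =>
    le_trans (Finset.card_le_card fun c hc => by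
      have := (@Finset.mem_filter _ _ inst _ _).1 hc
      clear inst hc
      exact Finset.mem_filter.2 this) a7
  have b5 := i6.trans (Nat.add_le_add_left (Nat.mul_le_mul_left (2 * L) (b4 _)) _)
  have b6 := i7.trans (Nat.add_le_add_left (Nat.mul_le_mul_left _ (Nat.succ_le_succ (b4 _))) _)
  have b7 := move W0 i1 (x' := s.length) (i' := s.length)
    ((hl ▸ Cz.fin o).trans (Cs.fin o).symm) i3 i4
  rw [List.take_of_length_le le_rfl, List.take_of_length_le hl.le] at b7
  have b8 := Nat.mul_le_mul_left W (add_le_add (Cz.hv_le W0 o s.length) (Cs.hv_le W0 o s.length))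
  generalize 2 * (4 * T + M * (5 * T) + 2 + M * (2 * t)) + (3 * (h + 3 * M * h) + 1) * T = β at *
  have b9 := Nat.mul_le_mul_left h (show s.length ≤ m + L + 2 * L * β by omega)
  refine Nat.le_of_mul_le_mul_left ?_ W0
  have c1 : W * (2 * T + 6 * h * β + 9 * h) =
      W * (T + T) + 4 * (h * W) * (β + 1) + 4 * (h * W) + (6 * (h * L * β) + 3 * (h * L)) := by
    rw [hW]; ring
  have c2 : h * (m + L + 2 * L * β) = h * m + h * L + 2 * (h * L * β) := by ring
  rw [c1]
  rw [c2] at b9
  rw [mul_add h s.length] at b7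
  simp only [Nat.succ_eq_add_one] at b6
  omega

end Pool.Agent.Lib.MP_78205c_lc.Mj
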