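import Pool.Agent.Lib.MP_78205c_lc.Mj.Lift

/-!
The source is jointly aligned with its traces with high probability, and the estimator.
-/

namespace Pool.Agent.Lib.MP_78205c_lc.Mj

open Finset ENNReal

variable {p : ℝ} {M : ℕ}

theorem pre (s : List Bool) (us : List (Fin M → List Bool)) (hl : us.length = s.length) :
    ∃ a c : Fin M → ℕ → ℕ, (∀ j, a j 0 = 0) ∧ (∀ j i, a j i ≤ a j (i + 1)) ∧
      (∀ j i, a j (i + 1) ≤ a j i + 1 + c j i) ∧
      (∀ j i, c j i = 0 → a j (i + 1) = a j i + 1 ∧ (fl us j)[a j i]? = s[i]?) ∧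
      (∀ j q, ∃ i, q < a j (i + 1)) ∧
      (∀ j i, lev ((s.drop i).take 1) (((fl us j).drop (a j i)).take (a j (i + 1) - a j i)) ≤ c j i) ∧
      (∀ j, a j s.length = (fl us j).length) ∧ ∀ i, ∑ j, c j i = (cs s us).getD i 0 := by
  induction s generalizing us with
  | nil =>
    obtain rfl := List.length_eq_zero_iff.1 hl
    exact ⟨fun _ i => i, fun _ _ => 0, fun _ => rfl, fun _ _ => by simp, fun _ _ => by simp,
      fun _ _ _ => by simp [fl], fun _ q => ⟨q, by simp⟩, fun _ _ => by simp [fl, lev_self],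
      fun _ => by simp [fl], fun _ => by simp [cs]⟩
  | cons b s ih =>
    cases us with
    | nil => simp at hl
    | cons u us =>
      obtain ⟨a, c, h1, h2, h3, h4, h5, h7, h8, h6⟩ := ih us (by simpa using hl)
      have e : ∀ j, fl (u :: us) j = u j ++ fl us j := fun j => rfl
      refine ⟨fun j i => Nat.casesOn i 0 (fun i => (u j).length + a j i),
        fun j i => Nat.casesOn i (lev [b] (u j)) (c j), fun _ => rfl, fun j i => ?_, fun j i => ?_,
        fun j i => ?_, fun j q => ?_, fun j i => ?_, fun j => ?_, fun i => ?_⟩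
      · cases i with
        | zero => exact Nat.zero_le _
        | succ i => exact Nat.add_le_add_left (h2 j i) _
      · cases i with
        | zero =>
          have := (length_le_lev [b] (u j)).2
          simpa [h1] using this
        | succ i =>
          have := h3 j i
          simp only
          omega
      · cases i with
        | zero =>
          intro h0
          have : u j = [b] := by_contra fun hn => absurd (lev_pos hn) (by simpa using h0)
          simp [h1, e, this]
        | succ i =>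
          intro h0
          obtain ⟨b1, b2⟩ := h4 j i h0
          simp only [e]
          refine ⟨by omega, ?_⟩
          rw [List.getElem?_append_right (Nat.le_add_right _ _), Nat.add_sub_cancel_left, b2,
            List.getElem?_cons_succ]
      · obtain ⟨i, hi⟩ := h5 j q
        exact ⟨i + 1, lt_of_lt_of_le hi (Nat.le_add_left _ _)⟩
      · cases i with
        | zero => simp [h1, e]
        | succ i =>
          have := h7 j i
          simp only [e, List.drop_succ_cons, Nat.add_sub_add_left]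
          rwa [← List.drop_drop, List.drop_left]
      · simp [e, h8]
      · cases i with
        | zero => simp [cs]
        | succ i => simpa [cs] using h6 i

theorem sum_take (l : List ℕ) (V : ℕ) : (l.take V).sum = ∑ r ∈ range V, l.getD r 0 := by
  induction V generalizing l with
  | zero => simp
  | succ V ih =>
    cases l with
    | nil => simp
    | cons b l => rw [Finset.sum_range_succ', List.take_succ_cons, List.sum_cons, ih, add_comm]; simp

theorem sum_chunk (l : List ℕ) (a V : ℕ) :
    ((l.drop a).take V).sum = ∑ x ∈ Ico a (a + V), l.getD x 0 := by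
  rw [sum_take, Finset.sum_Ico_eq_sum_range, Nat.add_sub_cancel_left]
  simp [List.getD_eq_getElem?_getD]

theorem sum_two (f : ℕ → ℕ) (N : ℕ) :
    ∑ m ∈ range (2 * N), f m = ∑ m ∈ range N, f (2 * m) + ∑ m ∈ range N, f (2 * m + 1) := by
  induction N with
  | zero => simp
  | succ N ih =>
    rw [mul_add, mul_one, Finset.sum_range_succ, Finset.sum_range_succ, ih, Finset.sum_range_succ,
      Finset.sum_range_succ]
    omega

theorem cert_of (s : List Bool) (us : List (Fin M → List Bool)) (hl : us.length = s.length)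
    {W h N T : ℕ} (hh : 1 ≤ h) (hN : s.length ≤ N * (2 * W))
    (hT : bm (2 * W) h N (cs s us) + bm (2 * W) h N ((cs s us).drop W) ≤ T) :
    Nonempty (Cert s (fl us) W h T) := by
  obtain ⟨a, c, h1, h2, h3, h4, h5, h7, h8, h6⟩ := pre s us hl
  have e : ∀ m, ∑ j, ∑ x ∈ Ico (m * W) (m * W + 2 * W), c j x =
      (((cs s us).drop (m * W)).take (2 * W)).sum := by
    intro m
    rw [Finset.sum_comm, sum_chunk]
    simp only [h6]
  refine ⟨⟨a, c, (range (2 * N)).filter fun m => h ≤ (((cs s us).drop (m * W)).take (2 * W)).sum,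
    h1, h2, h3, h4, h5, h7, h8, fun m hm => ?_, ?_⟩⟩
  · rw [e]
    by_cases b : m < 2 * N
    · exact not_le.1 fun b' => hm (Finset.mem_filter.2 ⟨mem_range.2 b, b'⟩)
    · have e3 := Nat.mul_le_mul_right W (not_lt.1 b)
      rw [List.drop_eq_nil_of_le]
      · simpa using Nat.lt_of_lt_of_le Nat.zero_lt_one hh
      · simp only [cs, List.length_zipWith]
        nlinarith [min_le_left s.length us.length]
  · simp only [e]
    rw [Finset.sum_filter]
    refine le_trans (le_of_eq ?_) hT
    rw [sum_two, bm, bm]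
    congr 1 <;> refine Finset.sum_congr rfl fun m _ => ?_
    · rw [wt, show 2 * m * W = m * (2 * W) by ring]
    · rw [wt, List.drop_drop, show (2 * m + 1) * W = W + m * (2 * W) by ring]

theorem EM_not_cert (hp0 : 0 < p) (hp1 : p ≤ 1) {W h N T : ℕ} (hM : 1 ≤ M) (hW : 1 ≤ W)
    (hh : 1 ≤ h) (hs : 60 * p * M * (2 * W : ℕ) ≤ 1) (s : List Bool) (hN : s.length ≤ N * (2 * W)) :
    EM p M s (fun ys => ind (¬ Nonempty (Cert s ys W h T))) ≤
      2 * ex (N * (60 * p * M * (2 * W : ℕ)) ^ h - T / 2) := by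
  have b := EE_bm (EE_wt hp0 hp1 hM (show 1 ≤ 2 * W by omega) hh hs) hp0.le hp1 N
  rw [ex_pow] at b
  have b2 := EE_split (p := p) (M := M) W s (fun _ => 1) (fun l => ex (bm (2 * W) h N l))
  simp only [one_mul, EE_const hp0.le hp1] at b2
  rw [EM_eq_EE]
  calc _ ≤ EE p M s (fun us => ex (-(T / 2)) *
        (ex (bm (2 * W) h N (cs s us)) + ex (bm (2 * W) h N ((cs s us).drop W)))) := by
        refine EE_mono _ fun us hl => ind_le fun hn => ?_
        have c : T < bm (2 * W) h N (cs s us) + bm (2 * W) h N ((cs s us).drop W) :=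
          not_le.1 fun hT => hn (cert_of s us hl hh hN hT)
        have key : ∀ A : ℕ, T ≤ 2 * A → 1 ≤ ex (-(T / 2)) * ex A := by
          intro A hA
          rw [← ex_add]
          have : (T : ℝ) ≤ 2 * A := by exact_mod_cast hA
          exact one_le_ex (by linarith)
        rw [mul_add]
        by_cases d : T ≤ 2 * bm (2 * W) h N (cs s us)
        · exact le_add_right (key _ d)
        · exact le_add_left (key _ (by omega))
    _ ≤ _ := by
        rw [EE_mul, EE_add, b2, sub_eq_neg_add, ex_add, mul_left_comm 2, two_mul (ex _)]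
        gcongr
        exacts [b _, b _]

theorem success_of (hp0 : 0 ≤ p) (hp1 : p ≤ 1) (n : ℕ) (A : (Fin M → List Bool) → List Bool)
    (D : ℝ) {ε : ℝ} (e : 0 ≤ ε)
    (h : tot n (fun s => EM p M s (fun ys => ind (¬ (ED s (A ys) : ℝ) ≤ D))) ≤
      ENNReal.ofReal ε * 2 ^ n) : 1 - ε ≤ success p n M A D := by
  set S : List Bool → ℝ≥0∞ := fun s => EM p M s (fun ys => ind ((ED s (A ys) : ℝ) ≤ D)) with hS
  set F : List Bool → ℝ≥0∞ := fun s => EM p M s (fun ys => ind (¬ (ED s (A ys) : ℝ) ≤ D)) with hF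
  have a1 : ∀ s, S s + F s = 1 := fun s => by
    rw [hS, hF, ← EM_add, ← EM_const (M := M) hp0 hp1 s 1]
    refine congrArg _ (funext fun ys => ?_)
    by_cases h : (ED s (A ys) : ℝ) ≤ D
    · rw [ind_pos h, ind_neg (not_not.2 h)]; simp
    · rw [ind_neg h, ind_pos h]; simp
  have a3 : tot n F ≤ ENNReal.ofReal (ε * 2 ^ n) := by
    rwa [ENNReal.ofReal_mul e, ENNReal.ofReal_pow (by positivity), ENNReal.ofReal_ofNat]
  have f1 : ∀ s, F s ≠ ⊤ := fun s => ne_top_of_le_ne_top one_ne_top (a1 s ▸ le_add_self)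
  have f2 : ∀ s, S s ≠ ⊤ := fun s => ne_top_of_le_ne_top one_ne_top (a1 s ▸ le_self_add)
  have a4 : ∀ s : List Bool, ∑' ys : Fin M → List Bool, (∏ i, trace p s (ys i)) *
      (if (ED s (A ys) : ℝ) ≤ D then 1 else 0) = 1 - (F s).toReal := fun s => by
    have b := congrArg ENNReal.toReal (a1 s)
    rw [ENNReal.toReal_add (f2 s) (f1 s), ENNReal.toReal_one] at b
    rw [← eq_sub_of_add_eq b, hS]
    simp only [EM, ← (trace_eq hp0 hp1 s _).2]
    rw [ENNReal.tsum_toReal_eq fun ys => ENNReal.mul_ne_top (ENNReal.prod_ne_top fun _ _ => by simp)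
      (ne_top_of_le_ne_top one_ne_top (ind_le_one _))]
    refine tsum_congr fun ys => ?_
    rw [ENNReal.toReal_mul, ENNReal.toReal_prod]
    simp only [ENNReal.toReal_ofReal (trace_eq hp0 hp1 s _).1, ind]
    split_ifs <;> simp
  have a5 := ENNReal.toReal_le_of_le_ofReal (by positivity) a3
  rw [tot, ENNReal.toReal_sum fun _ _ => f1 _] at a5
  simp only [success, a4, Finset.sum_sub_distrib, Finset.sum_const, Finset.card_univ,
    Fintype.card_pi, Fintype.card_bool, Finset.prod_const, Fintype.card_fin, nsmul_eq_mul, mul_one]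
  push_cast
  rw [one_div, ← div_eq_inv_mul, le_div_iff₀ (by positivity)]
  linarith

theorem est (hp0 : 0 < p) (hp1 : p ≤ 1) {n W h N T k t L : ℕ} {ρ D ε : ℝ} (hM0 : 1 ≤ M)
    (hh : 1 ≤ h) (hM : 2 * h ≤ M + 1) (hk : 1 ≤ k) (hL : (h + 3 * M * h) * k = L)
    (hW : W = 3 * L) (hs : 60 * p * M * (2 * W : ℕ) ≤ 1) (hN : n ≤ N * (2 * W))
    (hρ : 0 ≤ ρ) (hρ' : 3 ≤ ρ ^ 2 * 2 ^ k)
    (hD : (2 * T + 6 * h * (2 * (4 * T + M * (5 * T) + 2 + M * (2 * t)) +
      (3 * (h + 3 * M * h) + 1) * T) + 9 * h : ℕ) ≤ D)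
    (hε : Real.exp (2 * n * ρ - t) +
      2 * Real.exp (N * (60 * p * M * (2 * W : ℕ)) ^ h - T / 2) ≤ ε) :
    ∃ A, 1 - ε ≤ success p n M A D := by
  classical
  have W0 : 1 ≤ W := by
    have : 0 < (h + 3 * M * h) * k := Nat.mul_pos (by omega) hk
    omega
  have ex_A : ∀ ys : Fin M → List Bool, ∃ z : List Bool, ∀ s : List Bool, s.length = n →
      Nonempty (Cert s ys W h T) → z.length = n ∧ Nonempty (Cert z ys W h T) := by
    intro ys
    by_cases b : ∃ s : List Bool, s.length = n ∧ Nonempty (Cert s ys W h T)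
    · obtain ⟨s, hs⟩ := b
      exact ⟨s, fun _ _ _ => hs⟩
    · exact ⟨[], fun s h1 h2 => absurd ⟨s, h1, h2⟩ b⟩
  choose A hA using ex_A
  refine ⟨A, success_of hp0.le hp1 n A D (le_trans (by positivity) hε) ?_⟩
  calc _ ≤ tot n (fun s => ind (Rp k t s) +
        2 * ex (N * (60 * p * M * (2 * W : ℕ)) ^ h - T / 2)) := by
        refine tot_mono fun s hl => ?_
        by_cases b : Rp k t s
        · rw [ind_pos b]
          exact le_add_right ((EM_mono _ fun _ => ind_le_one _).trans (EM_const hp0.le hp1 _ _).le)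
        · refine le_add_left (le_trans (EM_mono _ fun ys => ind_le fun hn => (ind_pos ?_).ge)
            (EM_not_cert hp0 hp1 hM0 W0 hh hs s (hl ▸ hN)))
          rintro ⟨Cs⟩
          obtain ⟨h1, ⟨Cz⟩⟩ := hA ys s hl ⟨Cs⟩
          refine hn (le_trans ?_ hD)
          exact_mod_cast (ED_le_lev _ _).trans (det Cs Cz (h1.trans hl.symm) hM0 hh hM hk hL hW b)
    _ ≤ (ex (2 * n * ρ - t) +
        2 * ex (N * (60 * p * M * (2 * W : ℕ)) ^ h - T / 2)) * 2 ^ n := by
        rw [tot_add, tot_const, add_mul]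
        gcongr
        exact tot_Rp hk hρ hρ'
    _ ≤ _ := by
        gcongr
        refine le_trans (le_of_eq ?_) (ENNReal.ofReal_le_ofReal hε)
        rw [ENNReal.ofReal_add (by positivity) (by positivity), ENNReal.ofReal_mul (by positivity),
          ENNReal.ofReal_ofNat, ex, ex]

end Pool.Agent.Lib.MP_78205c_lc.Mj
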