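import Pool.Agent.Lib.MP_78205c_lc.Mj.Rep

/-!
The traces as concatenations of independent pieces, one for each letter of the source.
-/

namespace Pool.Agent.Lib.MP_78205c_lc.Mj

open Finset ENNReal

/-- Expectation over `M` independent traces. -/
noncomputable def EM (p : ℝ) (M : ℕ) (x : List Bool) (F : (Fin M → List Bool) → ℝ≥0∞) : ℝ≥0∞ :=
  ∑' ys : Fin M → List Bool, (∏ j, ch p 0 x (ys j)) * F ys

variable {p : ℝ} {M : ℕ}

theorem EM_mono (x : List Bool) {F G : (Fin M → List Bool) → ℝ≥0∞} (h : ∀ y, F y ≤ G y) :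
    EM p M x F ≤ EM p M x G := ENNReal.tsum_le_tsum fun y => by gcongr; exact h y

theorem EM_mul (x : List Bool) (c : ℝ≥0∞) (F : (Fin M → List Bool) → ℝ≥0∞) :
    EM p M x (fun y => c * F y) = c * EM p M x F := by
  unfold EM
  rw [← ENNReal.tsum_mul_left]
  exact tsum_congr fun y => by ring

theorem EM_add (x : List Bool) (F G : (Fin M → List Bool) → ℝ≥0∞) :
    EM p M x (fun y => F y + G y) = EM p M x F + EM p M x G := by
  unfold EM
  rw [← ENNReal.tsum_add]
  exact tsum_congr fun y => by ring

theorem EM_prod (x : List Bool) (g : List Bool → ℝ≥0∞) :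
    EM p M x (fun ys => ∏ j, g (ys j)) = E p 0 x g ^ M := by
  unfold EM E
  rw [← tsum_pi]
  exact tsum_congr fun ys => Finset.prod_mul_distrib.symm

theorem EM_const (hp0 : 0 ≤ p) (hp1 : p ≤ 1) (x : List Bool) (c : ℝ≥0∞) :
    EM p M x (fun _ => c) = c := by
  have h1 := EM_prod (p := p) (M := M) x (fun _ => 1)
  have h2 := EM_mul (p := p) (M := M) x c (fun _ => 1)
  rw [E_one hp0 hp1] at h1
  simp only [Finset.prod_const_one, one_pow, mul_one] at h1 h2
  rw [h2, h1, mul_one]

theorem EM_succ (x : List Bool) (F : (Fin (M + 1) → List Bool) → ℝ≥0∞) :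
    EM p (M + 1) x F = E p 0 x (fun y => EM p M x (fun ys => F (Fin.cons y ys))) := by
  unfold EM E
  rw [← (Fin.consEquiv (fun _ => List Bool)).tsum_eq, ENNReal.tsum_prod']
  refine tsum_congr fun y => ?_
  rw [← ENNReal.tsum_mul_left]
  refine tsum_congr fun ys => ?_
  simp [Fin.consEquiv, Fin.prod_univ_succ, mul_assoc]

theorem E_EM (x x' : List Bool) (G : List Bool → (Fin M → List Bool) → ℝ≥0∞) :
    E p 0 x' (fun b => EM p M x (fun u => G b u)) = EM p M x (fun u => E p 0 x' (fun b => G b u)) := by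
  unfold EM E
  simp only [← ENNReal.tsum_mul_left]
  rw [ENNReal.tsum_comm]
  exact tsum_congr fun u => tsum_congr fun b => by ring

theorem EM_append (x x' : List Bool) (F : (Fin M → List Bool) → ℝ≥0∞) :
    EM p M (x ++ x') F = EM p M x (fun u => EM p M x' (fun v => F (fun j => u j ++ v j))) := by
  induction M with
  | zero =>
    unfold EM
    simp only [univ_eq_empty, prod_empty, one_mul, tsum_fintype, Fintype.sum_unique]
    exact congrArg F (Subsingleton.elim _ _)
  | succ M ih =>
    simp only [EM_succ, E_append, ih]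
    refine congrArg _ (funext fun a => ?_)
    rw [E_EM]
    refine congrArg _ (funext fun u => congrArg _ (funext fun b => congrArg _ (funext fun v =>
      congrArg F (funext fun j => ?_))))
    refine Fin.cases ?_ (fun j => ?_) j <;> simp

theorem EM_nil (F : (Fin M → List Bool) → ℝ≥0∞) : EM p M [] F = F (fun _ => []) := by
  unfold EM
  rw [tsum_eq_single (fun _ => [])]
  · simp [ch_nil]
  · intro ys h
    obtain ⟨j, hj⟩ := Function.ne_iff.1 h
    rw [Finset.prod_eq_zero (mem_univ j), zero_mul]
    rw [ch_nil, ENNReal.ofReal_zero, zero_pow (by simpa using hj)]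

/-- Expectation over independent pieces. -/
noncomputable def EE (p : ℝ) (M : ℕ) : List Bool → (List (Fin M → List Bool) → ℝ≥0∞) → ℝ≥0∞
  | [], G => G []
  | b :: s, G => EM p M [b] (fun u => EE p M s (fun us => G (u :: us)))

/-- The traces made of given pieces. -/
def fl (us : List (Fin M → List Bool)) : Fin M → List Bool := fun j => (us.map (· j)).flatten

theorem EM_eq_EE (s : List Bool) (F : (Fin M → List Bool) → ℝ≥0∞) :
    EM p M s F = EE p M s (fun us => F (fl us)) := by
  induction s generalizing F with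
  | nil => rw [EM_nil, EE]; rfl
  | cons b s ih =>
    rw [EE, ← List.singleton_append, EM_append]
    simp only [ih]
    rfl

theorem EE_mono (s : List Bool) {F G : List (Fin M → List Bool) → ℝ≥0∞}
    (h : ∀ us, us.length = s.length → F us ≤ G us) : EE p M s F ≤ EE p M s G := by
  induction s generalizing F G with
  | nil => exact h _ rfl
  | cons b s ih => exact EM_mono _ fun u => ih fun us e => h _ (by simp [e])

theorem EE_mul (s : List Bool) (c : ℝ≥0∞) (F : List (Fin M → List Bool) → ℝ≥0∞) :
    EE p M s (fun y => c * F y) = c * EE p M s F := by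
  induction s generalizing F with
  | nil => rfl
  | cons b s ih => simp only [EE, ih, EM_mul]

theorem EE_add (s : List Bool) (F G : List (Fin M → List Bool) → ℝ≥0∞) :
    EE p M s (fun y => F y + G y) = EE p M s F + EE p M s G := by
  induction s generalizing F G with
  | nil => rfl
  | cons b s ih => simp only [EE, ih, EM_add]

theorem EE_const (hp0 : 0 ≤ p) (hp1 : p ≤ 1) (s : List Bool) (c : ℝ≥0∞) :
    EE p M s (fun _ => c) = c := by
  induction s with
  | nil => rfl
  | cons b s ih => simp only [EE, ih, EM_const hp0 hp1]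

/-- The total cost of each letter. -/
noncomputable def cs (s : List Bool) (us : List (Fin M → List Bool)) : List ℕ :=
  List.zipWith (fun b u => ∑ j, lev [b] (u j)) s us

theorem EE_split (V : ℕ) (s : List Bool) (A B : List ℕ → ℝ≥0∞) :
    EE p M s (fun us => A ((cs s us).take V) * B ((cs s us).drop V)) =
      EE p M (s.take V) (fun us => A (cs (s.take V) us)) *
        EE p M (s.drop V) (fun us => B (cs (s.drop V) us)) := by
  induction V generalizing s A with
  | zero => simp [EE, EE_mul, cs]
  | succ V ih =>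
    cases s with
    | nil => simp [EE, cs]
    | cons b s =>
      simp only [EE, List.take_succ_cons, List.drop_succ_cons]
      rw [mul_comm, ← EM_mul]
      refine congrArg _ (funext fun u => ?_)
      rw [mul_comm]
      exact ih s (fun l => A ((∑ j, lev [b] (u j)) :: l))

theorem EE_pow (hp0 : 0 ≤ p) (hp1 : p ≤ 1) {w φ : ℝ} (hw : 1 ≤ w) (hφ : 0 ≤ φ)
    (h1 : p / 2 * w + 1 + p / 2 * w * φ ≤ φ) (x : List Bool) :
    EE p M x (fun us => ENNReal.ofReal w ^ (cs x us).sum) ≤ (ENNReal.ofReal φ ^ M) ^ x.length := by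
  induction x with
  | nil => simp [EE, cs]
  | cons b x ih =>
    have e : ∀ u us, ENNReal.ofReal w ^ (cs (M := M) (b :: x) (u :: us)).sum =
        (∏ j, ENNReal.ofReal (w ^ lev [b] (u j))) * ENNReal.ofReal w ^ (cs x us).sum := by
      intro u us
      simp only [cs, List.zipWith_cons_cons, List.sum_cons, pow_add, ← Finset.prod_pow_eq_pow_sum,
        ENNReal.ofReal_pow (zero_le_one.trans hw)]
    simp only [EE, e, EE_mul]
    have h2 := E_lev hp0 hp1 hw hφ h1 [b]
    rw [List.length_singleton, pow_one] at h2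
    calc _ ≤ EM p M [b] (fun u => (ENNReal.ofReal φ ^ M) ^ x.length *
          ∏ j, ENNReal.ofReal (w ^ lev [b] (u j))) :=
          EM_mono _ fun u => by rw [mul_comm]; gcongr
      _ ≤ _ := by
          rw [EM_mul, EM_prod [b] (fun y => ENNReal.ofReal (w ^ lev [b] y)), List.length_cons,
            pow_succ]
          gcongr

/-- The weight of a chunk. -/
def wt (h S : ℕ) : ℕ := if h ≤ S then 1 + S else 0

/-- The total weight of the first `N` chunks of length `V`. -/
def bm (V h N : ℕ) (l : List ℕ) : ℕ := ∑ m ∈ range N, wt h ((l.drop (m * V)).take V).sum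

theorem EE_bm {V h : ℕ} {γ : ℝ≥0∞}
    (hγ : ∀ x : List Bool, x.length ≤ V → EE p M x (fun us => ex (wt h (cs x us).sum)) ≤ γ)
    (hp0 : 0 ≤ p) (hp1 : p ≤ 1) (N : ℕ) (s : List Bool) :
    EE p M s (fun us => ex (bm V h N (cs s us))) ≤ γ ^ N := by
  induction N generalizing s with
  | zero => simp [bm, EE_const hp0 hp1]
  | succ N ih =>
    have e : ∀ l : List ℕ, ex (bm V h (N + 1) l) =
        ex (wt h (l.take V).sum) * ex (bm V h N (l.drop V)) := by
      intro l
      rw [← ex_add, bm, bm, Finset.sum_range_succ', Nat.cast_add, add_comm]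
      simp only [List.drop_drop, add_mul, one_mul, zero_mul, List.drop_zero, add_comm V]
    simp only [e]
    rw [EE_split V s (fun l => ex (wt h l.sum)) (fun l => ex (bm V h N l)), pow_succ']
    exact mul_le_mul' (hγ _ (List.length_take_le _ _)) (ih _)

theorem EE_wt (hp0 : 0 < p) (hp1 : p ≤ 1) {V h : ℕ} (hM : 1 ≤ M) (hV : 1 ≤ V) (hh : 1 ≤ h)
    (hs : 60 * p * M * V ≤ 1) (x : List Bool) (hx : x.length ≤ V) :
    EE p M x (fun us => ex (wt h (cs x us).sum)) ≤ ex ((60 * p * M * V) ^ h) := by
  have M1 : (1 : ℝ) ≤ M := by exact_mod_cast hM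
  have V1 : (1 : ℝ) ≤ V := by exact_mod_cast hV
  have e1 := Real.exp_one_lt_d9
  have e0 := Real.exp_pos 1
  obtain ⟨δ, hδ⟩ : ∃ δ : ℝ, δ = 1 / (M * V) := ⟨_, rfl⟩
  have δ0 : 0 < δ := by rw [hδ]; positivity
  have δ1 : δ * (M * V) = 1 := by rw [hδ]; field_simp
  have δ2 : δ ≤ 1 := by nlinarith [mul_le_mul M1 V1 zero_le_one (by linarith)]
  obtain ⟨w, hw⟩ : ∃ w : ℝ, w = δ / p := ⟨_, rfl⟩
  have w1 : p * w = δ := by rw [hw]; field_simp
  have w0 : 0 < w := by rw [hw]; positivity
  have w2 : p * M * V * w = 1 := by rw [← δ1, ← w1]; ring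
  have w3 : 60 ≤ w := by nlinarith
  have a1 := EE_pow (M := M) hp0.le hp1 (w := w) (φ := 1 + 2 * δ) (by linarith) (by linarith)
    (by nlinarith) x
  have a2 : (ENNReal.ofReal (1 + 2 * δ) ^ M) ^ x.length ≤ ex 2 := by
    calc _ ≤ (ex (2 * δ) ^ M) ^ x.length := by
          gcongr
          exact ENNReal.ofReal_le_ofReal (by linarith [Real.add_one_le_exp (2 * δ)])
      _ ≤ _ := by
          rw [ex_pow, ex_pow]
          have : (x.length : ℝ) ≤ V := by exact_mod_cast hx
          exact ex_mono (by nlinarith [mul_pos δ0 (show (0 : ℝ) < M by linarith)])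
  have a3 : ∀ S : ℕ, ex (wt h S) ≤
      1 + ENNReal.ofReal (Real.exp 1 * (Real.exp 1 / w) ^ h) * ENNReal.ofReal w ^ S := by
    intro S
    unfold wt
    split_ifs with b
    · refine le_add_left ?_
      rw [← ENNReal.ofReal_pow w0.le, ← ENNReal.ofReal_mul (by positivity)]
      refine ENNReal.ofReal_le_ofReal ?_
      calc _ = Real.exp (1 + S) := by push_cast; rfl
        _ = Real.exp 1 * (Real.exp 1 / w) ^ S * w ^ S := by
          rw [Real.exp_add, mul_assoc, ← mul_pow, div_mul_cancel₀ _ w0.ne', Real.exp_one_pow]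
        _ ≤ _ := by
          gcongr _ * ?_ * _
          exact pow_le_pow_of_le_one (by positivity) ((div_le_one w0).2 (by linarith)) b
    · simp
  calc _ ≤ EE p M x (fun us => 1 + ENNReal.ofReal (Real.exp 1 * (Real.exp 1 / w) ^ h) *
        ENNReal.ofReal w ^ (cs x us).sum) := EE_mono _ fun us _ => a3 _
    _ ≤ 1 + ENNReal.ofReal (Real.exp 1 * (Real.exp 1 / w) ^ h) * ex 2 := by
        rw [EE_add, EE_mul, EE_const hp0.le hp1]
        gcongr
        exact a1.trans a2
    _ ≤ _ := by
        rw [ex, ex, ← ENNReal.ofReal_mul (by positivity), ← ENNReal.ofReal_one,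
          ← ENNReal.ofReal_add zero_le_one (by positivity)]
        refine ENNReal.ofReal_le_ofReal (le_trans ?_ (Real.add_one_le_exp _))
        rw [add_comm, add_le_add_iff_right]
        have b1 : Real.exp 2 = Real.exp 1 ^ 2 := by rw [Real.exp_one_pow]; norm_num
        have b2 : Real.exp 1 ^ 2 ≤ 7.4 := by nlinarith
        have b3 : Real.exp 1 * Real.exp 2 ≤ 21 ^ h :=
          le_trans (by rw [b1]; nlinarith) (le_self_pow₀ (by norm_num) (by omega))
        have b4 : Real.exp 1 / w = Real.exp 1 * (p * M * V) := by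
          rw [div_eq_iff w0.ne', mul_assoc, w2, mul_one]
        have b5 : 0 < p * M * V := by positivity
        calc _ = Real.exp 1 * Real.exp 2 * (Real.exp 1 / w) ^ h := by ring
          _ ≤ 21 ^ h * (Real.exp 1 / w) ^ h := by gcongr
          _ ≤ _ := by
            rw [← mul_pow, b4]
            exact pow_le_pow_left₀ (by positivity) (by nlinarith) _

end Pool.Agent.Lib.MP_78205c_lc.Mj
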