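import Pool.Agent.Lib.MP_78205c_lc.Mj.Est

/-!
A lower bound: a letter deleted in some traces cannot be told from a letter inserted in the others.
-/

namespace Pool.Agent.Lib.MP_78205c_lc.Mj

open Finset ENNReal

variable {p : ℝ} {M : ℕ}

theorem lev_le_ED (x y : List Bool) : lev x y ≤ 2 * ED x y := by
  have key : ∀ {k x y}, Edits k x y → lev x y ≤ 2 * k := by
    intro k x y h
    induction h with
    | refl x => simp [lev_self]
    | @step k x y z hs _ ih =>
      have : lev x y ≤ 2 := by
        cases hs with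
        | ins a b c =>
          have h1 := lev_append a a b (c :: b)
          have h2 := lev_ins c b b
          rw [lev_self] at h1 h2
          omega
        | del a b c =>
          have h1 := lev_append a a (c :: b) b
          have h2 := lev_del c b b
          rw [lev_self] at h1 h2
          omega
        | sub a b c d =>
          have h1 := lev_append a a (c :: b) (d :: b)
          have h2 := lev_del c b (d :: b)
          have h3 := lev_ins d b b
          rw [lev_self] at h1 h3
          omega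
      have := lev_triangle x y z
      omega
  exact key (Nat.sInf_mem (s := {k | Edits k x y}) ⟨_, (al_lev x y).edits⟩)

theorem ball {y φ : ℝ≥0∞} (h1 : 3 ≤ y) (h2 : 1 + 2 * φ + y ≤ y * φ) (e : ℕ) (z : List Bool) :
    ∑' s, ind (lev s z < e) ≤ y ^ e * φ ^ z.length := by
  induction e generalizing z with
  | zero => simp [ind_neg]
  | succ e ihe =>
    induction z with
    | nil =>
      have a : ∀ c s, ind (lev (c :: s) [] < e + 1) ≤ ind (lev s [] < e) := by
        intro c s
        refine ind_le fun h => (ind_pos ?_).ge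
        have := al_lev (c :: s) []
        generalize lev (c :: s) [] = m at h this
        cases this with
        | del _ h' => have := h'.lev_le; omega
      have b := ihe []
      have c : 1 ≤ y ^ e := one_le_pow₀ (le_trans (by norm_num) h1)
      rw [tsum_list]
      simp only [List.length_nil, pow_zero, mul_one] at b ⊢
      calc _ ≤ y ^ e + (y ^ e + y ^ e) := add_le_add ((ind_le_one _).trans c) (add_le_add
            ((ENNReal.tsum_le_tsum (a _)).trans b) ((ENNReal.tsum_le_tsum (a _)).trans b))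
        _ = y ^ e * 3 := by ring
        _ ≤ _ := by rw [pow_succ]; gcongr
    | cons d z ihz =>
      have a0 : ind (lev [] (d :: z) < e + 1) ≤ ind (lev [] z < e) := by
        refine ind_le fun h => (ind_pos ?_).ge
        have := al_lev [] (d :: z)
        generalize lev [] (d :: z) = m at h this
        cases this with
        | ins _ h' => have := h'.lev_le; omega
      have a : ∀ c s, ind (lev (c :: s) (d :: z) < e + 1) ≤ ind (lev (c :: s) z < e) +
          ind (lev s (d :: z) < e) + (if c = d then ind (lev s z < e + 1) else 0) := by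
        intro c s
        refine ind_le fun h => ?_
        have := al_lev (c :: s) (d :: z)
        generalize lev (c :: s) (d :: z) = m at h this
        cases this with
        | keep _ h' =>
          rw [if_pos rfl, ind_pos (show lev s z < e + 1 from h'.lev_le.trans_lt h)]
          exact le_add_self
        | del _ h' =>
          rw [ind_pos (show lev s (d :: z) < e by have := h'.lev_le; omega)]
          exact le_add_right le_add_self
        | ins _ h' =>
          rw [ind_pos (show lev (c :: s) z < e by have := h'.lev_le; omega)]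
          exact le_add_right le_self_add
      have b1 := ihe z
      have b2 := ihe (d :: z)
      rw [tsum_list] at b1 ⊢
      calc _ ≤ _ := add_le_add a0
            (add_le_add (ENNReal.tsum_le_tsum (a _)) (ENNReal.tsum_le_tsum (a _)))
        _ = (ind (lev [] z < e) + (∑' s, ind (lev (false :: s) z < e) +
            ∑' s, ind (lev (true :: s) z < e))) + 2 * ∑' s, ind (lev s (d :: z) < e) +
            ∑' s, ind (lev s z < e + 1) := by
            simp only [ENNReal.tsum_add]
            cases d <;> simp <;> ring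
        _ ≤ y ^ e * φ ^ z.length + 2 * (y ^ e * φ ^ (d :: z).length) + y ^ (e + 1) * φ ^ z.length := by
            gcongr
        _ = y ^ e * φ ^ z.length * (1 + 2 * φ + y) := by rw [List.length_cons]; ring
        _ ≤ y ^ e * φ ^ z.length * (y * φ) := by gcongr
        _ = _ := by rw [List.length_cons]; ring

theorem EM_tsum (x : List Bool) (G : List Bool → (Fin M → List Bool) → ℝ≥0∞) :
    EM p M x (fun u => ∑' s, G s u) = ∑' s, EM p M x (G s) := by
  unfold EM
  simp only [← ENNReal.tsum_mul_left]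
  rw [ENNReal.tsum_comm]

theorem EM_isolate (hp0 : 0 ≤ p) (hp1 : p ≤ 1) (x : List Bool) (H : (Fin M → List Bool) → ℝ≥0∞)
    {B : ℝ≥0∞} (hB : ∀ u, H u ≤ B) (u0 : Fin M → List Bool) :
    EM p M x H + (∏ j, ch p 0 x (u0 j)) * B ≤ B + (∏ j, ch p 0 x (u0 j)) * H u0 := by
  classical
  have a := EM_const (M := M) hp0 hp1 x B
  unfold EM at a ⊢
  rw [ENNReal.tsum_eq_add_tsum_ite u0] at a ⊢
  rw [add_right_comm, add_assoc, add_comm]
  refine add_le_add_left (le_trans (add_le_add_right (ENNReal.tsum_le_tsum fun u => ?_) _) a.le) _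
  split_ifs
  · exact le_rfl
  · gcongr; exact hB u

theorem prod_ch_le (hp0 : 0 ≤ p) (hp1 : p ≤ 1) (x : List Bool) (u0 : Fin M → List Bool) :
    ∏ j, ch p 0 x (u0 j) ≤ 1 := by
  have a := EM_const (M := M) hp0 hp1 x 1
  unfold EM at a
  simpa using (ENNReal.le_tsum u0).trans a.le

/-- Sources of all lengths below `n`, with geometric weights. -/
noncomputable def Y (p : ℝ) (r : ℝ≥0∞) (n : ℕ) (F : List Bool → (Fin M → List Bool) → ℝ≥0∞) : ℝ≥0∞ :=
  ∑' s : List Bool, (if s.length < n then r ^ s.length else 0) * EM p M s (F s)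

variable {r : ℝ≥0∞}

theorem Y_succ (n : ℕ) (F : List Bool → (Fin M → List Bool) → ℝ≥0∞) :
    Y p r (n + 1) F = F [] (fun _ => []) +
      (r * EM p M [false] (fun u => Y p r n fun s y => F (false :: s) fun j => u j ++ y j) +
        r * EM p M [true] (fun u => Y p r n fun s y => F (true :: s) fun j => u j ++ y j)) := by
  have a : ∀ b, ∑' s : List Bool, (if (b :: s).length < n + 1 then r ^ (b :: s).length else 0) *
      EM p M (b :: s) (F (b :: s)) =
      r * EM p M [b] (fun u => Y p r n fun s y => F (b :: s) fun j => u j ++ y j) := by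
    intro b
    unfold Y
    rw [EM_tsum, ← ENNReal.tsum_mul_left]
    refine tsum_congr fun s => ?_
    rw [EM_mul, ← EM_append [b] s (F (b :: s)), ← mul_assoc]
    simp [pow_succ']
  rw [Y, tsum_list, a, a, EM_nil]
  simp

theorem Y_step (n : ℕ) (F : List Bool → (Fin M → List Bool) → ℝ≥0∞) : Y p r n F ≤ Y p r (n + 1) F := by
  refine ENNReal.tsum_le_tsum fun s => mul_le_mul_left ?_ _
  by_cases h : s.length < n
  · rw [if_pos h, if_pos (Nat.lt_succ_of_lt h)]
  · rw [if_neg h]; exact zero_le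

theorem Y_add (n : ℕ) (F G : List Bool → (Fin M → List Bool) → ℝ≥0∞) :
    Y p r n (fun s y => F s y + G s y) = Y p r n F + Y p r n G := by
  unfold Y
  simp only [EM_add, mul_add, ENNReal.tsum_add]

theorem arith {K B r μ cv ca ce X1 X2 X3 X4 Ha y1 y2 : ℝ≥0∞} (hB : B ≠ ⊤) (hμ : μ ≤ 1)
    (hr : 8 * r = 4 + μ) (hK : 4 * K ≤ μ * B) (c1 : cv ≤ 1) (c2 : ca ≤ 1) (c3 : ce ≤ 1)
    (m1 : 2 * μ ≤ cv) (m2 : 4 * μ ≤ ca * ce) (b4 : X4 ≤ B) (b5 : Ha ≤ B) (b6 : y1 + y2 ≤ B)
    (b1 : X1 ≤ B) (b2 : X2 ≤ B) (b3 : X3 ≤ B)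
    (i1 : X1 + cv * B ≤ B + cv * y1) (i2 : X2 + ca * B ≤ B + ca * Ha)
    (i3 : X3 + ce * B ≤ B + ce * y2) (i4 : Ha ≤ K + (r * X4 + r * X3)) :
    K + (r * X2 + r * X1) ≤ B := by
  have f := fun {x : ℝ≥0∞} (h : x ≤ B) => ne_top_of_le_ne_top hB h
  have g := fun {x : ℝ≥0∞} (h : x ≤ 1) => ne_top_of_le_ne_top one_ne_top h
  have fK : K ≠ ⊤ := by
    rintro rfl
    exact ENNReal.mul_ne_top (g hμ) hB (by simpa using hK)
  have fr : r ≠ ⊤ := by
    rintro rfl
    exact g hμ (by simpa using hr.symm)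
  lift y1 to NNReal using f (le_self_add.trans b6)
  lift y2 to NNReal using f (le_add_self.trans b6)
  lift X1 to NNReal using f b1
  lift X2 to NNReal using f b2
  lift X3 to NNReal using f b3
  lift X4 to NNReal using f b4
  lift Ha to NNReal using f b5
  lift cv to NNReal using g c1
  lift ca to NNReal using g c2
  lift ce to NNReal using g c3
  lift μ to NNReal using g hμ
  lift K to NNReal using fK
  lift r to NNReal using fr
  clear f g
  lift B to NNReal using hB
  have hμ' : (μ : ℝ) ≤ 1 := by exact_mod_cast hμ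
  have hr' : 8 * (r : ℝ) = 4 + μ := by exact_mod_cast hr
  have hK' : 4 * (K : ℝ) ≤ μ * B := by exact_mod_cast hK
  have c2' : (ca : ℝ) ≤ 1 := by exact_mod_cast c2
  have m1' : 2 * (μ : ℝ) ≤ cv := by exact_mod_cast m1
  have m2' : 4 * (μ : ℝ) ≤ ca * ce := by exact_mod_cast m2
  have b4' : (X4 : ℝ) ≤ B := by exact_mod_cast b4
  have b6' : (y1 : ℝ) + y2 ≤ B := by exact_mod_cast b6
  have i1' : (X1 : ℝ) + cv * B ≤ B + cv * y1 := by exact_mod_cast i1
  have i2' : (X2 : ℝ) + ca * B ≤ B + ca * Ha := by exact_mod_cast i2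
  have i3' : (X3 : ℝ) + ce * B ≤ B + ce * y2 := by exact_mod_cast i3
  have i4' : (Ha : ℝ) ≤ K + (r * X4 + r * X3) := by exact_mod_cast i4
  have goal : (K : ℝ) + (r * X2 + r * X1) ≤ B := by
    have p1 := y1.2
    have p2 := y2.2
    have p3 := μ.2
    have p4 := ca.2
    have p5 := K.2
    have p6 := B.2
    have p7 := ce.2
    simp only [NNReal.val_eq_coe] at p1 p2 p3 p4 p5 p6 p7
    generalize (y1 : ℝ) = y1, (y2 : ℝ) = y2, (X1 : ℝ) = X1, (X2 : ℝ) = X2, (X3 : ℝ) = X3,
      (X4 : ℝ) = X4, (Ha : ℝ) = Ha, (cv : ℝ) = cv, (ca : ℝ) = ca, (ce : ℝ) = ce, (μ : ℝ) = μ,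
      (K : ℝ) = K, (r : ℝ) = r, (B : ℝ) = B at *
    have r1 : 1 / 2 ≤ r := by linarith
    have r2 : r ≤ 1 := by linarith
    have e1 : r * X1 ≤ r * B - μ * (B - y1) := by
      have : μ * (B - y1) ≤ r * cv * (B - y1) :=
        mul_le_mul_of_nonneg_right (by nlinarith) (by linarith)
      nlinarith
    have e2 : r * (ca * X3) ≤ r * (ca * B) - 2 * μ * (B - y2) := by
      have h1 : 2 * μ * (B - y2) ≤ r * (ca * ce) * (B - y2) :=
        mul_le_mul_of_nonneg_right (by nlinarith) (by linarith)
      have h2 : ca * X3 ≤ ca * (B - ce * (B - y2)) := mul_le_mul_of_nonneg_left (by linarith) p4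
      nlinarith
    have e3 : ca * Ha ≤ K + r * (ca * B) + r * (ca * X3) := by
      have h1 : ca * Ha ≤ ca * (K + (r * B + r * X3)) :=
        mul_le_mul_of_nonneg_left (by nlinarith) p4
      nlinarith
    have e4 : X2 ≤ B + K + (2 * r - 1) * B - 2 * μ * (B - y2) := by
      have : (2 * r - 1) * (ca * B) ≤ (2 * r - 1) * B :=
        mul_le_mul_of_nonneg_left (by nlinarith) (by linarith)
      linarith
    have e5 : r * X2 ≤ r * B + K + (2 * r - 1) * B - μ * (B - y2) := by
      have h1 : 0 ≤ (2 * r - 1) * B := mul_nonneg (by linarith) p6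
      have h2 : 0 ≤ μ * (B - y2) := mul_nonneg p3 (by linarith)
      nlinarith [mul_le_mul_of_nonneg_left e4 (show 0 ≤ r by linarith)]
    have e6 : μ * B ≤ μ * (B - y1) + μ * (B - y2) := by nlinarith
    have e7 : r * B = B / 2 + μ * B / 8 := by rw [show r = (4 + μ) / 8 by linarith]; ring
    nlinarith
  exact_mod_cast goal

theorem Y_le (hp0 : 0 ≤ p) (hp1 : p ≤ 1) {K B μ : ℝ≥0∞} (hB : B ≠ ⊤) (hμ : μ ≤ 1)
    (hr : 8 * r = 4 + μ) (hK : 4 * K ≤ μ * B) (a e : Fin M → List Bool)
    (m1 : 2 * μ ≤ ∏ j, ch p 0 [true] (a j ++ e j))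
    (m2 : 4 * μ ≤ (∏ j, ch p 0 [false] (a j)) * ∏ j, ch p 0 [true] (e j)) (n : ℕ) :
    ∀ F : List Bool → (Fin M → List Bool) → ℝ≥0∞, (∀ ys, ∑' s, F s ys ≤ K) → Y p r n F ≤ B := by
  induction n with
  | zero => intro F _; simp [Y]
  | succ n ih =>
    have sub : ∀ (F : List Bool → (Fin M → List Bool) → ℝ≥0∞), (∀ ys, ∑' s, F s ys ≤ K) →
        ∀ b ys, ∑' s, F (b :: s) ys ≤ K := by
      intro F hF b ys
      refine le_trans ?_ (hF ys)
      rw [tsum_list (fun s => F s ys)]
      cases b
      · exact le_add_left le_self_add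
      · exact le_add_left le_add_self
    intro F hF
    have k1 : ∀ b (u : Fin M → List Bool), Y p r n (fun s y => F (b :: s) fun j => u j ++ y j) ≤ B :=
      fun b u => ih _ fun ys => sub F hF b _
    have k2 : ∀ b (u : Fin M → List Bool), Y p r n
        (fun s y => F (false :: b :: s) fun j => a j ++ (u j ++ y j)) ≤ B :=
      fun b u => ih _ fun ys => sub (fun s => F (false :: s)) (sub F hF false) b _
    have k3 := fun b (H : (Fin M → List Bool) → ℝ≥0∞) (hH : ∀ u, H u ≤ B) =>
      (EM_mono (p := p) [b] hH).trans (EM_const hp0 hp1 _ _).le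
    have k4 : ∀ s ys, F s ys ≤ K := fun s ys => (ENNReal.le_tsum s).trans (hF ys)
    rw [Y_succ]
    refine le_trans (add_le_add_left (k4 _ _) _) (arith hB hμ hr hK (prod_ch_le hp0 hp1 _ _)
      (prod_ch_le hp0 hp1 _ _) (prod_ch_le hp0 hp1 _ _) m1 m2 (k3 false _ (k2 false)) (k1 false a) ?_
      (k3 _ _ (k1 true)) (k3 _ _ (k1 false)) (k3 _ _ (k2 true))
      (EM_isolate hp0 hp1 _ _ (k1 true) fun j => a j ++ e j) (EM_isolate hp0 hp1 _ _ (k1 false) a)
      (EM_isolate hp0 hp1 _ _ (k2 true) e) ?_)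
    · rw [← Y_add]
      refine ih _ fun ys => le_trans ?_ (hF fun j => a j ++ (e j ++ ys j))
      rw [ENNReal.tsum_add, tsum_list (fun s => F s _), tsum_list (fun s => F (false :: s) _)]
      simp only [List.append_assoc]
      rw [add_comm]
      exact le_add_left (add_le_add_left (le_add_left le_add_self) _)
    · refine (Y_step _ _).trans ?_
      rw [Y_succ]
      exact add_le_add_left (k4 _ _) _

theorem prod_ch_ge (hp0 : 0 ≤ p) (hp1 : p ≤ 1) (S : Finset (Fin M)) {h : ℕ} (hS : S.card ≤ h)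
    (f : Fin M → ℝ≥0∞) (hf : ∀ j, ENNReal.ofReal ((if j ∈ S then p else 1) / 8) ≤ f j) :
    ENNReal.ofReal (p ^ h / 8 ^ M) ≤ ∏ j, f j := by
  refine le_trans ?_ (Finset.prod_le_prod' fun j _ => hf j)
  rw [← ENNReal.ofReal_prod_of_nonneg fun j _ => by split_ifs <;> positivity]
  refine ENNReal.ofReal_le_ofReal ?_
  rw [Finset.prod_div_distrib, Finset.prod_ite_mem, Finset.univ_inter, Finset.prod_const,
    Finset.prod_const, card_univ, Fintype.card_fin]
  gcongr ?_ / _
  exact pow_le_pow_of_le_one hp0 hp1 hS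

theorem success_le (hp0 : 0 ≤ p) (hp1 : p ≤ 1) (n : ℕ) (A : (Fin M → List Bool) → List Bool)
    (D : ℝ) {ε : ℝ} (e : 0 ≤ ε)
    (h : tot n (fun s => EM p M s (fun ys => ind ((ED s (A ys) : ℝ) ≤ D))) ≤
      ENNReal.ofReal (ε * 2 ^ n)) : success p n M A D ≤ ε := by
  set S : List Bool → ℝ≥0∞ := fun s => EM p M s (fun ys => ind ((ED s (A ys) : ℝ) ≤ D)) with hS
  have f2 : ∀ s, S s ≠ ⊤ := fun s => ne_top_of_le_ne_top one_ne_top
    ((EM_mono _ fun _ => ind_le_one _).trans (EM_const hp0 hp1 _ _).le)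
  have a4 : ∀ s : List Bool, ∑' ys : Fin M → List Bool, (∏ i, trace p s (ys i)) *
      (if (ED s (A ys) : ℝ) ≤ D then 1 else 0) = (S s).toReal := fun s => by
    rw [hS]
    simp only [EM, ← (trace_eq hp0 hp1 s _).2]
    rw [ENNReal.tsum_toReal_eq fun ys => ENNReal.mul_ne_top (ENNReal.prod_ne_top fun _ _ => by simp)
      (ne_top_of_le_ne_top one_ne_top (ind_le_one _))]
    refine tsum_congr fun ys => ?_
    rw [ENNReal.toReal_mul, ENNReal.toReal_prod]
    simp only [ENNReal.toReal_ofReal (trace_eq hp0 hp1 s _).1, ind]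
    split_ifs <;> simp
  have a5 := ENNReal.toReal_le_of_le_ofReal (by positivity) h
  rw [tot, ENNReal.toReal_sum fun _ _ => f2 _] at a5
  simp only [success, a4]
  rw [one_div, ← div_eq_inv_mul, div_le_iff₀ (by positivity)]
  exact a5

/-- The lower bound with free parameters. -/
theorem low (hp0 : 0 < p) (hp1 : p ≤ 1 / 2) {h : ℕ} (h1 : h ≤ M) (h2 : M ≤ 2 * h) (n : ℕ)
    (A : (Fin M → List Bool) → List Bool) {D μ y : ℝ} {d : ℕ} (hd : D < d + 1) (hμ0 : 0 < μ)
    (hμ : μ ≤ p ^ h / (4 * 64 ^ M)) (hy : 8 ≤ y) :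
    success p n M A D ≤ 4 / μ * (y ^ (2 * d + 1) * (1 + 4 / y) ^ (n + 2 * d)) / (1 + μ / 4) ^ n := by
  classical
  have p1 : p ≤ 1 := by linarith
  have y0 : 0 < y := by linarith
  have e1 : (1 : ℝ) ≤ 8 ^ M := one_le_pow₀ (by norm_num)
  have e2 : (64 : ℝ) ^ M = 8 ^ M * 8 ^ M := by rw [← mul_pow]; norm_num
  have e3 : p ^ h ≤ 1 := pow_le_one₀ hp0.le p1
  have e4 : 4 * μ ≤ p ^ h / 8 ^ M * (p ^ 0 / 8 ^ M) := by
    rw [pow_zero, div_mul_div_comm, mul_one, ← e2]
    rw [le_div_iff₀ (by positivity)] at hμ ⊢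
    linarith
  have e5 : 2 * μ ≤ p ^ h / 8 ^ M := by
    have : p ^ h / 8 ^ M * (p ^ 0 / 8 ^ M) ≤ p ^ h / 8 ^ M :=
      mul_le_of_le_one_right (by positivity) (by rw [pow_zero, div_le_one (by positivity)]; exact e1)
    linarith
  have e6 : μ ≤ 1 := by
    have : p ^ h / 8 ^ M ≤ 1 := by rw [div_le_one (by positivity)]; linarith
    linarith
  obtain ⟨J, -, hJ⟩ := Finset.exists_subset_card_eq (s := (univ : Finset (Fin M))) (n := h)
    (by simpa using h1)
  have c1 : ∀ b, ENNReal.ofReal (1 / 2) ≤ ch p 0 [b] [b] := fun b => by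
    rw [ch_cons_cons, if_pos rfl, ch_nil p 0 [], List.length_nil, pow_zero, mul_one]
    exact le_add_right (le_add_left (ENNReal.ofReal_le_ofReal (by linarith)))
  have c2 : ∀ b, ENNReal.ofReal (1 / 8) ≤ ch p 0 [b] [b] :=
    fun b => (ENNReal.ofReal_le_ofReal (by norm_num)).trans (c1 b)
  have m1 := prod_ch_ge hp0.le p1 Jᶜ (h := h) (by rw [card_compl, hJ, Fintype.card_fin]; omega)
    (fun j => ch p 0 [true] ((if j ∈ J then [] else [false]) ++ [true])) (fun j => by
      by_cases b : j ∈ J
      · simpa [b] using c2 true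
      · simp only [mem_compl, b, not_false_eq_true, if_true, if_false, List.singleton_append]
        rw [ch_cons_cons, show p / 8 = p / 4 * (1 / 2) by ring, ENNReal.ofReal_mul (by positivity)]
        exact le_add_left (mul_le_mul_right (c1 true) _))
  have m2 := prod_ch_ge hp0.le p1 J hJ.le
    (fun j => ch p 0 [false] (if j ∈ J then [] else [false])) (fun j => by
      by_cases b : j ∈ J
      · simp only [b, if_true]
        rw [ch_cons_nil, ch_nil, List.length_nil, pow_zero, mul_one]
        exact ENNReal.ofReal_le_ofReal (by linarith)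
      · simpa [b] using c2 false)
  have m3 := prod_ch_ge hp0.le p1 (∅ : Finset (Fin M)) (h := 0) le_rfl
    (fun _ => ch p 0 [true] [true]) (fun j => by simpa using c2 true)
  obtain ⟨k, hk⟩ : ∃ k, k = y ^ (2 * d + 1) * (1 + 4 / y) ^ (n + 2 * d) := ⟨_, rfl⟩
  have k0 : 0 ≤ k := by rw [hk]; positivity
  have main := Y_le (r := ENNReal.ofReal ((1 + μ / 4) / 2)) hp0.le p1 (K := ENNReal.ofReal k)
    (B := ENNReal.ofReal (4 / μ * k)) (μ := ENNReal.ofReal μ) ENNReal.ofReal_ne_top
    (by simpa using e6)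
    (by
      rw [← ENNReal.ofReal_ofNat 8, ← ENNReal.ofReal_ofNat 4, ← ENNReal.ofReal_mul (by norm_num),
        ← ENNReal.ofReal_add (by norm_num) hμ0.le]
      congr 1; ring)
    (by
      rw [← ENNReal.ofReal_ofNat 4, ← ENNReal.ofReal_mul (by norm_num), ← ENNReal.ofReal_mul hμ0.le]
      exact ENNReal.ofReal_le_ofReal (le_of_eq (by field_simp)))
    (fun j => if j ∈ J then [] else [false]) (fun _ => [true])
    (le_trans (by
      rw [← ENNReal.ofReal_ofNat 2, ← ENNReal.ofReal_mul (by norm_num)]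
      exact ENNReal.ofReal_le_ofReal e5) m1)
    (le_trans (by
      rw [← ENNReal.ofReal_ofNat 4, ← ENNReal.ofReal_mul (by norm_num),
        ← ENNReal.ofReal_mul (by positivity)]
      exact ENNReal.ofReal_le_ofReal e4) (mul_le_mul' m2 m3))
    (n + 1) (fun s ys => ind (s.length = n ∧ (ED s (A ys) : ℝ) ≤ D)) (fun ys => by
      have b0 : ∀ s : List Bool, (ED s (A ys) : ℝ) ≤ D → lev s (A ys) < 2 * d + 1 := by
        intro s hs
        have b1 : ED s (A ys) < d + 1 := by exact_mod_cast hs.trans_lt hd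
        have := lev_le_ED s (A ys)
        omega
      by_cases b : (A ys).length ≤ n + 2 * d
      · refine le_trans (ENNReal.tsum_le_tsum fun s => ind_le fun hs => (ind_pos (b0 s hs.2)).ge)
          ((ball (y := ENNReal.ofReal y) (φ := ENNReal.ofReal (1 + 4 / y)) ?_ ?_ _ _).trans ?_)
        · rw [← ENNReal.ofReal_ofNat 3]
          exact ENNReal.ofReal_le_ofReal (by linarith)
        · rw [← ENNReal.ofReal_ofNat 2, ← ENNReal.ofReal_mul (by norm_num), ← ENNReal.ofReal_one,
            ← ENNReal.ofReal_add (by norm_num) (by positivity),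
            ← ENNReal.ofReal_add (by positivity) y0.le, ← ENNReal.ofReal_mul y0.le]
          refine ENNReal.ofReal_le_ofReal ?_
          have b1 : y * (4 / y) = 4 := by field_simp
          have b2 : 4 / y ≤ 1 / 2 := by rw [div_le_iff₀ y0]; linarith
          linarith [mul_add y 1 (4 / y)]
        · rw [hk, ENNReal.ofReal_mul (by positivity), ENNReal.ofReal_pow y0.le,
            ENNReal.ofReal_pow (by positivity)]
          gcongr
          exact ENNReal.one_le_ofReal.2 (le_add_of_nonneg_right (by positivity))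
      · rw [tsum_congr fun s => ind_neg ?_]
        · simp
        · rintro ⟨s1, s2⟩
          have b1 := b0 s s2
          have b2 := (length_le_lev s (A ys)).2
          omega)
  rw [← hk]
  refine success_le hp0.le p1 n A D (by positivity) ?_
  have q0 : (0 : ℝ) < ((1 + μ / 4) / 2) ^ n := by positivity
  have fin : ENNReal.ofReal (((1 + μ / 4) / 2) ^ n) *
      tot n (fun s => EM p M s (fun ys => ind ((ED s (A ys) : ℝ) ≤ D))) ≤
      ENNReal.ofReal (4 / μ * k) := by
    refine le_trans ?_ ((tot_le_tsum n _).trans main)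
    rw [← tot_mul]
    refine tot_mono fun s hs => le_of_eq ?_
    simp only [hs, Nat.lt_succ_self, if_true, true_and, ENNReal.ofReal_pow
      (show 0 ≤ (1 + μ / 4) / 2 by positivity)]
  refine (ENNReal.mul_le_mul_iff_right (a := ENNReal.ofReal (((1 + μ / 4) / 2) ^ n))
    (by simpa using q0) ENNReal.ofReal_ne_top).1 (fin.trans (le_of_eq ?_))
  rw [← ENNReal.ofReal_mul q0.le]
  congr 1
  rw [div_pow]
  field_simp

end Pool.Agent.Lib.MP_78205c_lc.Mj
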