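import Pool.Agent.Lib.MP_78205c_lc.ML
import Pool.Agent.Lib.MP_78205c_lc.Mj.Det

/-!
A uniform string rarely has many monotone repeats.
-/

namespace Pool.Agent.Lib.MP_78205c_lc.Mj

open Finset ENNReal

theorem card_forced {n : ℕ} (D : Finset (Fin n)) (P : (Fin n → Bool) → Prop) [DecidablePred P]
    (h : ∀ i ∈ D, ∃ i' < i, ∀ s, P s → s i = s i') :
    (univ.filter P).card * 2 ^ D.card ≤ 2 ^ n := by
  have a1 : (univ.filter P).card ≤ (univ : Finset ({i // i ∉ D} → Bool)).card := by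
    refine Finset.card_le_card_of_injOn (fun s i => s i.1) (fun _ _ => by simp)
      fun s hs s' hs' e => funext fun i => ?_
    induction i using WellFoundedLT.induction with
    | ind i ih =>
      by_cases hi : i ∈ D
      · obtain ⟨i', h1, h2⟩ := h i hi
        rw [h2 s (Finset.mem_filter.1 hs).2, h2 s' (Finset.mem_filter.1 hs').2, ih i' h1]
      · exact congrFun e ⟨i, hi⟩
  rw [card_univ, Fintype.card_fun, Fintype.card_bool, Fintype.card_subtype_compl,
    Fintype.card_fin, Fintype.card_coe] at a1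
  have a2 : D.card ≤ n := by simpa using D.card_le_univ
  calc _ ≤ 2 ^ (n - D.card) * 2 ^ D.card := Nat.mul_le_mul_right _ a1
    _ = 2 ^ n := by rw [← pow_add, Nat.sub_add_cancel a2]

open Classical in
theorem card_strictMono (t n : ℕ) :
    (univ.filter fun f : Fin t → Fin n => StrictMono f).card ≤ n.choose t := by
  have a : (univ.filter fun f : Fin t → Fin n => StrictMono f).card ≤
      (powersetCard t (univ : Finset (Fin n))).card := by
    refine Finset.card_le_card_of_injOn (fun f => univ.image f) (fun f hf => ?_)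
      fun f hf g hg e => ?_
    · refine Finset.mem_coe.2 (mem_powersetCard.2 ⟨subset_univ _, ?_⟩)
      rw [Finset.card_image_of_injective _ (Finset.mem_filter.1 hf).2.injective, card_univ,
        Fintype.card_fin]
    · refine ((Finset.mem_filter.1 hf).2.range_inj (Finset.mem_filter.1 hg).2).1 ?_
      have := congrArg (fun X : Finset (Fin n) => (X : Set (Fin n))) e
      simpa using this
  rwa [card_powersetCard, card_univ, Fintype.card_fin] at a

open Classical in
theorem card_Rp {k : ℕ} (hk : 1 ≤ k) (t n : ℕ) :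
    (univ.filter fun s : Fin n → Bool => Rp k t (List.ofFn s)).card * 2 ^ (t * k) ≤
      n.choose t ^ 2 * 2 ^ n := by
  set Ω := univ.filter fun f : Fin t → Fin n => StrictMono f with hΩ
  set Q : (Fin t → Fin n) × (Fin t → Fin n) → (Fin n → Bool) → Prop := fun fg s =>
    (∀ a b, a < b → (fg.2 a : ℕ) + k ≤ fg.2 b) ∧ ∀ a, (fg.1 a : ℕ) < fg.2 a ∧ fg.2 a + k ≤ n ∧
      ∀ r < k, (List.ofFn s)[fg.1 a + r]? = (List.ofFn s)[fg.2 a + r]? with hQ
  have a1 : (univ.filter fun s : Fin n → Bool => Rp k t (List.ofFn s)) ⊆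
      (Ω ×ˢ Ω).biUnion fun fg => univ.filter (Q fg) := by
    intro s hs
    obtain ⟨f, g, h1, h2, h3⟩ := (Finset.mem_filter.1 hs).2
    simp only [List.length_ofFn] at h3
    refine Finset.mem_biUnion.2 ⟨(fun a => ⟨f a, by have := h3 a; omega⟩,
      fun a => ⟨g a, by have := h3 a; omega⟩), mem_product.2 ⟨Finset.mem_filter.2 ⟨mem_univ _, h1⟩,
        Finset.mem_filter.2 ⟨mem_univ _, fun a b hab => ?_⟩⟩, Finset.mem_filter.2 ⟨mem_univ _, h2, h3⟩⟩
    exact Fin.mk_lt_mk.2 (lt_of_lt_of_le (Nat.lt_add_of_pos_right hk) (h2 a b hab))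
  have a2 : ∀ fg, (univ.filter (Q fg)).card * 2 ^ (t * k) ≤ 2 ^ n := by
    rintro ⟨f, g⟩
    rcases (univ.filter (Q (f, g))).eq_empty_or_nonempty with e | ⟨s0, hs0⟩
    · simp [e]
    obtain ⟨h2, h3⟩ := (Finset.mem_filter.1 hs0).2
    simp only at h2 h3
    set φ : Fin t × Fin k → Fin n := fun ar => ⟨g ar.1 + ar.2, by
      have := (h3 ar.1).2.1; have := ar.2.2; omega⟩ with hφ
    have inj : Function.Injective φ := by
      rintro ⟨a, r⟩ ⟨b, r'⟩ e
      have e' : (g a : ℕ) + r = g b + r' := congrArg Fin.val e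
      have := r.2
      have := r'.2
      rcases lt_trichotomy a b with hab | rfl | hab
      · have := h2 a b hab; omega
      · exact Prod.ext rfl (Fin.ext (by simpa using e'))
      · have := h2 b a hab; omega
    have b := card_forced (univ.image φ) (Q (f, g)) (by
      intro i hi
      obtain ⟨⟨a, r⟩, _, rfl⟩ := Finset.mem_image.1 hi
      have c1 := h3 a
      have c2 := r.2
      refine ⟨⟨f a + r, by omega⟩, Fin.mk_lt_mk.2 (by simp only; omega), fun s hs => ?_⟩
      have c3 := (hs.2 a).2.2 r c2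
      simp only [List.getElem?_ofFn] at c3
      rw [dif_pos (by omega), dif_pos (by omega)] at c3
      exact (Option.some.inj c3).symm)
    rwa [Finset.card_image_of_injective _ inj, card_univ, Fintype.card_prod, Fintype.card_fin,
      Fintype.card_fin] at b
  calc _ ≤ (∑ fg ∈ Ω ×ˢ Ω, (univ.filter (Q fg)).card) * 2 ^ (t * k) :=
        Nat.mul_le_mul_right _ ((Finset.card_le_card a1).trans Finset.card_biUnion_le)
    _ ≤ ∑ _fg ∈ Ω ×ˢ Ω, 2 ^ n := by
        rw [Finset.sum_mul]; exact Finset.sum_le_sum fun fg _ => a2 fg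
    _ ≤ _ := by
        rw [Finset.sum_const, card_product, smul_eq_mul, pow_two]
        have := card_strictMono t n
        gcongr

theorem choose_le_exp {ρ : ℝ} (hρ : 0 ≤ ρ) (n t : ℕ) : (n.choose t : ℝ) * ρ ^ t ≤ Real.exp (n * ρ) := by
  refine le_trans ?_ (Real.pow_div_factorial_le_exp _ (by positivity) t)
  rw [mul_pow, mul_div_right_comm]
  gcongr
  exact Nat.choose_le_pow_div t n

theorem tot_Rp {k t n : ℕ} (hk : 1 ≤ k) {ρ : ℝ} (hρ : 0 ≤ ρ) (h : 3 ≤ ρ ^ 2 * 2 ^ k) :
    tot n (fun s => ind (Rp k t s)) ≤ ex (2 * n * ρ - t) * 2 ^ n := by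
  classical
  have a1 : tot n (fun s => ind (Rp k t s)) =
      ((univ.filter fun s : Fin n → Bool => Rp k t (List.ofFn s)).card : ℕ) := by
    rw [tot, Finset.card_filter, Nat.cast_sum]
    refine Finset.sum_congr rfl fun s _ => ?_
    by_cases b : Rp k t (List.ofFn s)
    · rw [ind_pos b, if_pos b, Nat.cast_one]
    · rw [ind_neg b, if_neg b, Nat.cast_zero]
  have a2 := card_Rp hk t n
  rw [a1]
  generalize (univ.filter fun s : Fin n → Bool => Rp k t (List.ofFn s)).card = X at a2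
  have a3 : (X : ℝ) * 2 ^ (t * k) ≤ (n.choose t : ℝ) ^ 2 * 2 ^ n := by exact_mod_cast a2
  have a4 := choose_le_exp hρ n t
  have a5 : Real.exp t ≤ (ρ ^ t) ^ 2 * 2 ^ (t * k) := by
    rw [← pow_mul, mul_comm t 2, pow_mul, mul_comm t k, pow_mul, ← mul_pow, ← Real.exp_one_pow]
    gcongr
    linarith [Real.exp_one_lt_d9]
  have a6 : (X : ℝ) ≤ Real.exp (2 * n * ρ - t) * 2 ^ n := by
    rw [Real.exp_sub, div_mul_eq_mul_div, le_div_iff₀ (Real.exp_pos _)]
    calc (X : ℝ) * Real.exp t ≤ X * ((ρ ^ t) ^ 2 * 2 ^ (t * k)) := by gcongr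
      _ = X * 2 ^ (t * k) * (ρ ^ t) ^ 2 := by ring
      _ ≤ (n.choose t : ℝ) ^ 2 * 2 ^ n * (ρ ^ t) ^ 2 := by gcongr
      _ = ((n.choose t : ℝ) * ρ ^ t) ^ 2 * 2 ^ n := by ring
      _ ≤ Real.exp (n * ρ) ^ 2 * 2 ^ n := by gcongr
      _ = _ := by rw [← Real.exp_nat_mul]; congr 2; push_cast; ring
  have a7 := ENNReal.ofReal_le_ofReal a6
  rwa [ENNReal.ofReal_natCast, ENNReal.ofReal_mul (Real.exp_pos _).le,
    ENNReal.ofReal_pow (by norm_num), ENNReal.ofReal_ofNat] at a7

end Pool.Agent.Lib.MP_78205c_lc.Mj
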